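import Pool.Agent.Helper64.FL.StH

/-! Full list for MP_866009_co: the first vertex of the path is complete to `RR`. -/

set_option autoImplicit false

namespace Pool.Agent.Helper64.FL

open Pool.Agent.Helper64.CT Pool.Agent.Helper64.DT
open Pool.Agent.Helper64.HG (Ovl Model Circ IC HellyCircle ChordModel)

theorem dj0_cmp (h1 : ST_CNB) {V : Type} {G : SimpleGraph V} {x a b u w : V}
    (hu : Comp G x a u) (hw : Comp G x b w) (hn : ¬ Comp G x a b) : u ≠ w ∧ ¬ G.Adj u w := by
  obtain ⟨c1, c2, -, c4, c5, -, -⟩ := h1 V G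
  have hu' := (c5 x a u).1 hu
  have hw' := (c5 x b w).1 hw
  constructor
  · rintro rfl
    exact hn ((c5 x a b).2 (c2 _ _ _ _ hu' (c1 _ _ _ hw').2))
  · intro hadj
    have h3 := c4 (Far G x) u w (c1 _ _ _ hu').1 (c1 _ _ _ hw').1 hadj
    exact hn ((c5 x a b).2 (c2 _ _ _ _ (c2 _ _ _ _ hu' h3) (c1 _ _ _ hw').2))

theorem dj0_app {V : Type} {G : SimpleGraph V} (q : V) : ∀ A : List V, IPt G A → A ≠ [] →
    (∀ u ∈ A, u ≠ q ∧ (G.Adj u q ↔ A.getLast? = some u)) → IPt G (A ++ [q]) := by
  intro A
  induction A with
  | nil => intro _ h; exact absurd rfl h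
  | cons a l ih =>
    intro hI _ h
    obtain ⟨i1, i2, i3, i4⟩ := hI
    rcases l with _ | ⟨b, l⟩
    · have h0 := h a (by simp)
      simp only [List.getLast?_singleton, iff_true] at h0
      refine ⟨by simpa using h0.1, by simpa using h0.2, by simp, by simp, by simp, by simp, ?_⟩
      trivial
    · have hn : ∀ u ∈ b :: l, u ≠ q ∧ (G.Adj u q ↔ (b :: l).getLast? = some u) := by
        intro u hu
        have := h u (List.mem_cons_of_mem _ hu)
        rwa [List.getLast?_cons_cons] at this
      have h0 := h a (by simp)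
      have hna : ¬ G.Adj a q := by
        rw [h0.2, List.getLast?_cons_cons]
        intro hl
        exact i1 a (List.mem_of_getLast? hl) rfl
      have := ih i4 (by simp) hn
      refine ⟨?_, ?_, ?_, this⟩
      · intro u hu
        have hu' : u ∈ (b :: l) ++ [q] := hu
        rcases List.mem_append.1 hu' with hu' | hu'
        · exact i1 u hu'
        · rw [List.mem_singleton.1 hu']
          exact h0.1
      · simpa using i2
      · intro u hu
        have hu' : u ∈ l ++ [q] := hu
        rcases List.mem_append.1 hu' with hu' | hu'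
        · exact i3 u hu'
        · rw [List.mem_singleton.1 hu']
          exact hna

theorem st_DJ0 (h1 : ST_CNB) (h3 : ST_D1F) (h4 : ST_D1A) (h5 : ST_ARC) (h7 : ST_PTB)
    (h8 : ST_LPN) (h9 : ST_LPW) : ST_DJ0 := by
  intro V G x K y u0 Lu um hR hCI hD hu0 hLu
  obtain ⟨f1, f2, f3, f4, -, f6⟩ := h3 V G x K y u0 Lu um hD
  have hne : u0 ≠ um := f6 hu0
  have hmoc := hD.moc
  have hK5 := hmoc.k5
  obtain ⟨q, hq, huq⟩ := hD.m0.2
  obtain ⟨p, hp, hump⟩ := hD.mm.1
  have hpR : p ∉ RR G x K y := fun h => f3 p h hump
  have hqR : q ∉ RR G x K y := fun h => huq (hu0.2 q h)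
  obtain ⟨n, P, hA, hn0, hnq, hnR, hPc, hst, hqn⟩ :=
    h4 V G x K y u0 Lu um hR.df hD p q hp hpR hq hqR
  obtain ⟨a1, a2⟩ := h5 V G x n P 0 (K - 1) hA
  -- basic facts
  have hLc : ∀ u ∈ Lu, ∀ j, 1 ≤ j → j < K → ∀ m ∈ Att G x (y j), ¬ G.Adj u m := by
    intro u hu
    rcases f1 u hu with h | h
    · exact absurd h.1 (hLu u hu)
    · exact h.2
  have humq : ∀ m ∈ Att G x (y (K - 1)), ¬ G.Adj um m := f4 hne
  have hIP : IPt G (u0 :: (Lu ++ [um])) := by
    rcases hD.p.pth with h | h
    · exact absurd h.1 hne
    · exact h.2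
  obtain ⟨p1, p2, p3, p4⟩ := hIP
  obtain ⟨-, t2, -, -, -, -⟩ := h7 V G
  obtain ⟨-, hul, -⟩ := t2 _ _ _ hD.p.pth
  have hE : ∀ u ∈ Lu ++ [um], Comp G x (y 0) u := by
    intro u hu
    rcases List.mem_append.1 hu with hu | hu
    · exact hD.p.LK u hu
    · rw [List.mem_singleton.1 hu]
      exact hD.p.rK
  have hfar : ∀ u, Comp G x (y 0) u → u ≠ x ∧ ¬ G.Adj x u := by
    intro u hu
    obtain ⟨_, hz, _⟩ := hu
    exact hz
  have hPE : ∀ i, i + 1 < K → ∀ w ∈ P i, ∀ u, Comp G x (y 0) u → u ≠ w ∧ ¬ G.Adj u w := by
    intro i hi w hw u hu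
    exact dj0_cmp h1 hu (hPc i hi w hw) (hmoc.ncm 0 (i + 1) (by omega) (by omega))
  have hPx : ∀ i, i + 1 < K → ∀ w ∈ P i, w ≠ x ∧ ¬ G.Adj x w := by
    intro i hi w hw
    exact hA.far i (by omega) (by omega) w hw
  have hnx : ∀ i, i < K → G.Adj x (n i) := fun i hi => hA.xn i (by omega) (by omega)
  have hnu : ∀ i, i < K → ∀ u, Comp G x (y 0) u → u ≠ n i := by
    rintro i hi u hu rfl
    exact (hfar _ hu).2 (hnx i hi)
  have hnP : ∀ i j, i < K → j + 1 < K → ∀ w ∈ P j, n i ≠ w := by
    rintro i j hi hj w hw rfl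
    exact (hPx j hj _ hw).2 (hnx i hi)
  have hu0n : ∀ i, i + 2 ≤ K → G.Adj u0 (n i) := by
    intro i hi
    rcases Nat.eq_zero_or_pos i with h | h
    · rw [h, hn0]
      exact hD.u1 u0 hu0 p hp
    · exact hu0.2 _ (hnR i h hi).2.2
  have hEn : ∀ u ∈ Lu ++ [um], ∀ i, i + 2 ≤ K → i ≠ 0 → ¬ G.Adj u (n i) := by
    intro u hu i hi hi0
    rcases List.mem_append.1 hu with hu | hu
    · exact hLc u hu i (by omega) (by omega) _ (hnR i (by omega) hi).1
    · rw [List.mem_singleton.1 hu]
      exact f3 _ (hnR i (by omega) hi).2.2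
  have hEq : ∀ u ∈ Lu ++ [um], u ≠ q ∧ ¬ G.Adj u q := by
    intro u hu
    refine ⟨?_, ?_⟩
    · rintro rfl
      exact (hfar _ (hE _ hu)).2 hq.1
    · rcases List.mem_append.1 hu with hu | hu
      · exact hLc u hu (K - 1) (by omega) (by omega) q hq
      · rw [List.mem_singleton.1 hu]
        exact humq q hq
  have hux := hfar u0 hu0.1
  have hqx : G.Adj x q := hq.1
  have hqn' : ∀ i, i + 2 ≤ K → q ≠ n i := by
    intro i hi h
    exact hA.inj i (K - 1) (by omega) (by omega) (by omega) (by rw [hnq, h])
  have hqP : ∀ i, i + 1 < K → ∀ w ∈ P i, q ≠ w := by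
    intro i hi w hw
    rw [← hnq]
    exact hnP (K - 1) i (by omega) hi w hw
  have hqP' : ∀ i, i + 2 < K → ∀ w ∈ P i, ¬ G.Adj q w := by
    intro i hi w hw
    rw [← hnq]
    exact hA.cln i (K - 1) (by omega) (by omega) (by omega) (by omega) (by omega) (by omega) w hw
  have mk : ∀ (t : ℕ) (E2 : List V), t + 2 ≤ K → E2 ≠ [] → IPt G E2 →
      E2.getLast? = some q →
      (∀ u ∈ E2.dropLast, ¬ G.Adj x u ∧ ¬ G.Adj u0 u) →
      (∀ u ∈ E2, u ≠ x ∧ u ≠ u0 ∧ (G.Adj u (n (0 + t)) ↔ E2.head? = some u)) →
      (∀ u ∈ E2, (∀ i, 0 ≤ i → i ≤ 0 + t → u ≠ n i ∧ (i ≠ 0 + t → ¬ G.Adj u (n i))) ∧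
        ∀ i, 0 ≤ i → i < 0 + t → ∀ w ∈ P i, u ≠ w ∧ ¬ G.Adj u w) →
      (∀ u ∈ Lu ++ [um], ∀ w ∈ E2, u ≠ w ∧ ¬ G.Adj u w) →
      LPc G x x u0 (Lu ++ [um]) n P 0 t E2 false true := by
    intro t E2 ht g1 g2 g3 g4 g5 g6 g7
    constructor
    case arc => exact a1 0 (0 + t) (by omega) (by omega) (by omega)
    case st => exact fun i j _ hij hj => hst i j hij (by omega)
    case hk => exact hux.1.symm
    case nhk => exact hux.2
    case hn => exact fun i _ hi => ⟨hnx i (by omega), hu0n i (by omega)⟩
    case hP =>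
      intro i _ hi u hu
      have e1 := hPx i (by omega) u hu
      have e2 := hPE i (by omega) u hu u0 hu0.1
      exact ⟨e1.1, e2.1.symm, e1.2, e2.2⟩
    case ne1 => simp
    case ne2 => exact g1
    case ip1 => exact p4
    case ip2 => exact g2
    case h1 =>
      intro u hu
      have hu' : u ∈ Lu ++ [um] := List.mem_of_mem_head? hu
      have e1 := hfar u (hE u hu')
      have e2 := p2 u hu
      refine ⟨⟨fun h => absurd h e1.2, fun h => ?_⟩, ⟨fun _ => rfl, fun _ => e2⟩⟩
      simp at h
    case t1 =>
      intro u hu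
      exact ⟨(hfar u (hE u (List.mem_of_mem_tail hu))).2, p3 u hu⟩
    case h2 =>
      intro u hu
      rw [g3] at hu
      have hu' : q = u := by simpa using hu
      rw [← hu']
      refine ⟨⟨fun _ => rfl, fun _ => hqx⟩, ⟨fun h => absurd h huq, fun h => ?_⟩⟩
      simp at h
    case t2 => exact g4
    case e1 =>
      intro u hu
      refine ⟨(hfar u (hE u hu)).1, fun h => p1 u hu h.symm, ?_⟩
      rw [hn0, List.getLast?_append, List.getLast?_singleton]
      rcases List.mem_append.1 hu with hu' | hu'
      · constructor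
        · intro h
          exact absurd h (hLc u hu' 1 (by omega) (by omega) p hp)
        · intro h
          have : um = u := by simpa using h
          exact absurd (this ▸ hu') hul
      · rw [List.mem_singleton.1 hu']
        simpa using hump
    case e2 => exact g5
    case c1 =>
      intro u hu
      exact ⟨fun i _ hi => ⟨hnu i (by omega) u (hE u hu), fun h => hEn u hu i (by omega) h⟩,
        fun i _ hi w hw => hPE i (by omega) w hw u (hE u hu)⟩
    case c2 => exact g6
    case c12 => exact g7
  have hodd := hmoc.odd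
  by_cases hex : ∃ i, i + 2 ≤ K ∧ G.Adj q (n i)
  · obtain ⟨i, hi, hqi⟩ := hex
    have hqj := hqn i hi hqi
    obtain ⟨z, hz⟩ : ∃ z, z ∈ P (K - 2) :=
      List.exists_mem_of_ne_nil _ (hA.ne (K - 2) (by omega) (by omega))
    have hzx := hPx (K - 2) (by omega) z hz
    have hzu := hPE (K - 2) (by omega) z hz u0 hu0.1
    have hzV : ∀ t, t + 2 ≤ K → z ∉ ladV x u0 (Lu ++ [um]) n P 0 t [q] := by
      intro t ht hzl
      rcases hzl with h | h | h | h | ⟨j, -, hj, h⟩ | ⟨j, -, hj, h⟩
      · exact hzx.1 h
      · exact hzu.1 h.symm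
      · exact (hPE (K - 2) (by omega) z hz z (hE z h)).1 rfl
      · exact hqP (K - 2) (by omega) z hz (List.mem_singleton.1 h).symm
      · exact hnP j (K - 2) (by omega) (by omega) z hz h.symm
      · exact (hA.sep j (K - 2) (by omega) (by omega) (by omega) z h z hz).1 rfl
    have mk1 : ∀ t, t + 2 ≤ K → G.Adj q (n t) →
        LPc G x x u0 (Lu ++ [um]) n P 0 t [q] false true := by
      intro t ht hqt
      have hqt' := hqn t ht hqt
      apply mk t [q] ht (by simp) ⟨by simp, by simp, by simp, trivial⟩ (by simp) (by simp)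
      · intro u hu
        rw [List.mem_singleton.1 hu]
        refine ⟨hqx.ne.symm, ?_, ?_⟩
        · rintro rfl
          exact hux.2 hqx
        · simpa using hqt
      · intro u hu
        rw [List.mem_singleton.1 hu]
        refine ⟨fun j _ hj => ⟨hqn' j (by omega), fun hjt => hqt' j (by omega) (by omega)⟩,
          fun j _ hj w hw => ⟨hqP j (by omega) w hw, hqP' j (by omega) w hw⟩⟩
      · intro u hu w hw
        rw [List.mem_singleton.1 hw]
        exact hEq u hu
    rcases Nat.lt_or_ge i (K - 2) with hi2 | hi2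
    · rcases Nat.lt_or_ge i (K - 3) with hi3 | hi3
      · -- case (d)
        exfalso
        apply hCI
        have fi : ∀ i j, i < j → j + 2 ≤ K → n i ∈ Far G (n j) ∧ n j ∈ Far G (n i) := by
          intro i j hij hj
          have e1 := hst i j hij hj
          have e2 := hA.inj i j (by omega) hij (by omega)
          exact ⟨⟨e2, fun h => e1 h.symm⟩, ⟨e2.symm, e1⟩⟩
        have fP : ∀ i j, i < K → j + 1 < K → i ≠ j → i ≠ j + 1 → ∀ w ∈ P j, w ∈ Far G (n i) := by
          intro i j hi hj h1' h2' w hw
          exact ⟨(hnP i j hi hj w hw).symm,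
            hA.cln j i (by omega) (by omega) (by omega) (by omega) h1' h2' w hw⟩
        refine ⟨x, n i, n (i + 1), n (i + 2), hnx i (by omega), hnx (i + 1) (by omega),
          hnx (i + 2) (by omega), ?_, ?_, ?_⟩
        · have b1 := a1 i (i + 1) (by omega) (by omega) (by omega)
          have b2 := (h5 V G x n P i (i + 1) b1).2 (n (i + 2)) (by
            intro j hj1 hj2
            exact (fi j (i + 2) (by omega) (by omega)).1) (by
            intro j hj1 hj2 u hu
            exact fP (i + 2) j (by omega) (by omega) (by omega) (by omega) u hu)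
          exact b2 i (i + 1) (by omega) (by omega) (by omega) (by omega)
        · have b1 := a1 (i + 1) (i + 2) (by omega) (by omega) (by omega)
          have b2 := (h5 V G x n P (i + 1) (i + 2) b1).2 (n i) (by
            intro j hj1 hj2
            exact (fi i j (by omega) (by omega)).2) (by
            intro j hj1 hj2 u hu
            exact fP i j (by omega) (by omega) (by omega) (by omega) u hu)
          exact b2 (i + 1) (i + 2) (by omega) (by omega) (by omega) (by omega)
        · have hqF : q ∈ Far G (n (i + 1)) :=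
            ⟨hqn' (i + 1) (by omega), fun h => hqj (i + 1) (by omega) (by omega) h.symm⟩
          have b1 := a1 (i + 2) (K - 1) (by omega) (by omega) (by omega)
          have b2 := (h5 V G x n P (i + 2) (K - 1) b1).2 (n (i + 1)) (by
            intro j hj1 hj2
            rcases Nat.lt_or_ge (j + 1) K with h | h
            · exact (fi (i + 1) j (by omega) (by omega)).2
            · have : j = K - 1 := by omega
              rw [this, hnq]
              exact hqF) (by
            intro j hj1 hj2 u hu
            exact fP (i + 1) j (by omega) (by omega) (by omega) (by omega) u hu)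
          have b3 := b2 (i + 2) (K - 1) (by omega) (by omega) (by omega) (by omega)
          rw [hnq] at b3
          obtain ⟨c1, c2, -, c4, c5, -, -⟩ := h1 V G
          have b4 := c4 (Far G (n (i + 1))) (n i) q (fi i (i + 1) (by omega) (by omega)).1 hqF
            hqi.symm
          exact (c5 _ _ _).2 (c2 _ _ _ _ b4 (c1 _ _ _ ((c5 _ _ _).1 b3)).2)
      · -- case (c)
        exfalso
        have hi3' : i = K - 3 := by omega
        have hd : ∀ j, j + 3 ≤ K → n (K - 2) ≠ n j ∧ ¬ G.Adj (n (K - 2)) (n j) := by
          intro j hj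
          exact ⟨(hA.inj j (K - 2) (by omega) (by omega) (by omega)).symm,
            fun h => hst j (K - 2) (by omega) (by omega) h.symm⟩
        have hcon : Con G x u0 (n (K - 2)) [] (n (K - 2)) := by
          refine ⟨hnx (K - 2) (by omega), hu0n (K - 2) (by omega), Or.inl ⟨rfl, rfl⟩,
            fun h => absurd rfl h, by simp, ?_⟩
          intro u hu
          have hu' : u = n (K - 2) := by simpa using hu
          rw [hu']
          exact ⟨(hnx (K - 2) (by omega)).ne.symm, (hnu (K - 2) (by omega) u0 hu0.1).symm⟩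
        have := h9 V G x x u0 (Lu ++ [um]) n P 0 (K - 3) [q] false true
          (mk1 (K - 3) (by omega) (hi3' ▸ hqi)) (by omega) (n (K - 2)) [] (n (K - 2)) hcon (by
            intro u hu
            have hu' : u = n (K - 2) := by simpa using hu
            rw [hu']
            refine ⟨?_, ?_, ?_, ?_⟩
            · intro w hw
              exact ⟨(hnu (K - 2) (by omega) w (hE w hw)).symm,
                fun h => hEn w hw (K - 2) (by omega) (by omega) h.symm⟩
            · intro w hw
              rw [List.mem_singleton.1 hw]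
              exact ⟨(hqn' (K - 2) (by omega)).symm,
                fun h => hqj (K - 2) (by omega) (by omega) h.symm⟩
            · intro j _ hj
              exact hd j (by omega)
            · intro j _ hj w hw
              exact ⟨hnP (K - 2) j (by omega) (by omega) w hw,
                hA.cln j (K - 2) (by omega) (by omega) (by omega) (by omega) (by omega) (by omega)
                  w hw⟩) {w | w ≠ z} (by
            intro w hw hwz
            exact hzV (K - 3) (by omega) (hwz ▸ hw)) (by
            intro u hu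
            have hu' : u = n (K - 2) := by simpa using hu
            rw [hu']
            exact hnP (K - 2) (K - 2) (by omega) (by omega) z hz)
        exact this (hR.naj z)
    · -- case (b)
      exfalso
      have hi3 : i = K - 2 := by omega
      have hL := mk1 (K - 2) (by omega) (hi3 ▸ hqi)
      have := (h8 V G x x u0 (Lu ++ [um]) n P 0 (K - 2) [q] false true hL
        (Or.inr ⟨by simp, by obtain ⟨m, hm⟩ := hodd; exact ⟨m - 1, by omega⟩, by omega⟩)).2 hR
      exact hzV (K - 2) (by omega) (this.2 z)
  · -- case (a)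
    have hna : ∀ i, i + 2 ≤ K → ¬ G.Adj q (n i) := fun i hi h => hex ⟨i, hi, h⟩
    have hPne : P (K - 2) ≠ [] := hA.ne (K - 2) (by omega) (by omega)
    have hlst := hA.lst (K - 2) (by omega) (by omega)
    rw [show K - 2 + 1 = K - 1 by omega, hnq] at hlst
    have hfst := hA.fst (K - 2) (by omega) (by omega)
    have hL : LPc G x x u0 (Lu ++ [um]) n P 0 (K - 2) (P (K - 2) ++ [q]) false true := by
      apply mk (K - 2) (P (K - 2) ++ [q]) (by omega) (by simp)
      · apply dj0_app q _ (hA.ip (K - 2) (by omega) (by omega)) hPne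
        intro u hu
        exact ⟨(hqP (K - 2) (by omega) u hu).symm, by rw [G.adj_comm]; exact hlst u hu⟩
      · simp
      · intro u hu
        rw [List.dropLast_concat] at hu
        exact ⟨(hPx (K - 2) (by omega) u hu).2, (hPE (K - 2) (by omega) u hu u0 hu0.1).2⟩
      · intro u hu
        have hh : (P (K - 2) ++ [q]).head? = (P (K - 2)).head? := List.head?_append_of_ne_nil _ hPne
        rw [hh, Nat.zero_add]
        rcases List.mem_append.1 hu with hu | hu
        · refine ⟨(hPx (K - 2) (by omega) u hu).1,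
            (hPE (K - 2) (by omega) u hu u0 hu0.1).1.symm, ?_⟩
          rw [G.adj_comm]
          exact hfst u hu
        · rw [List.mem_singleton.1 hu]
          refine ⟨hqx.ne.symm, ?_, ?_⟩
          · rintro rfl
            exact hux.2 hqx
          · constructor
            · intro h
              exact absurd h (hna (K - 2) (by omega))
            · intro h
              exact absurd rfl (hqP (K - 2) (by omega) q (List.mem_of_mem_head? h))
      · intro u hu
        rcases List.mem_append.1 hu with hu | hu
        · refine ⟨fun j _ hj => ⟨(hnP j (K - 2) (by omega) (by omega) u hu).symm, fun hjt h =>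
            hA.cln (K - 2) j (by omega) (by omega) (by omega) (by omega) (by omega) (by omega) u hu
              h.symm⟩, fun j _ hj w hw => ?_⟩
          have := hA.sep j (K - 2) (by omega) (by omega) (by omega) w hw u hu
          exact ⟨this.1.symm, fun h => this.2 h.symm⟩
        · rw [List.mem_singleton.1 hu]
          exact ⟨fun j _ hj => ⟨hqn' j (by omega), fun _ => hna j (by omega)⟩,
            fun j _ hj w hw => ⟨hqP j (by omega) w hw, hqP' j (by omega) w hw⟩⟩
      · intro u hu w hw
        rcases List.mem_append.1 hw with hw | hw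
        · exact hPE (K - 2) (by omega) w hw u (hE u hu)
        · rw [List.mem_singleton.1 hw]
          exact hEq u hu
    exact ((h8 V G x x u0 (Lu ++ [um]) n P 0 (K - 2) (P (K - 2) ++ [q]) false true hL
      (Or.inr ⟨by simp, by obtain ⟨m, hm⟩ := hodd; exact ⟨m - 1, by omega⟩, by omega⟩)).2 hR).1

end Pool.Agent.Helper64.FL
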