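import Pool.Agent.Helper64.FL.StH

/-! Full list for MP_866009_co: necklaces whose vertices `n i` form a clique. -/

set_option autoImplicit false

namespace Pool.Agent.Helper64.FL

open Pool.Agent.Helper64.CT Pool.Agent.Helper64.DT
open Pool.Agent.Helper64.HG (Ovl Model Circ IC HellyCircle ChordModel)

theorem nko_mod {V : Type} {k : ℕ} (n : ℕ → V) (hp : ∀ i, n (i + k) = n i)
    (i : ℕ) (hi : i < k) : n ((i + 1) % k) = n (i + 1) := by
  rcases Nat.lt_or_ge (i + 1) k with h | h
  · rw [Nat.mod_eq_of_lt h]
  · have : i + 1 = k := by omega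
    rw [this, Nat.mod_self]
    have := hp 0
    rw [Nat.zero_add] at this
    exact this.symm

theorem st_NKO (h1 : ST_NKC) : ST_NKO := by
  intro V G x k n P hR hN hodd hcl
  have hk := hN.k5
  have hcov := h1 V G x k n P hR hN hodd
  have hxn : ∀ i, G.Adj x (n i) := fun i => (hN.arc i).xn i le_rfl (by omega)
  have hfar : ∀ i, ∀ u ∈ P i, u ≠ x ∧ ¬ G.Adj x u := fun i u hu =>
    (hN.arc i).far i le_rfl (by omega) u hu
  have hinj : ∀ i j, i < j → j < i + k → n i ≠ n j := fun i j hij hj =>
    (hN.arc i).inj i j le_rfl hij (by omega)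
  have hfst : ∀ i, ∀ u ∈ P i, (G.Adj (n i) u ↔ (P i).head? = some u) := fun i =>
    (hN.arc i).fst i le_rfl (by omega)
  have hlst : ∀ i, ∀ u ∈ P i, (G.Adj (n (i + 1)) u ↔ (P i).getLast? = some u) := fun i =>
    (hN.arc i).lst i le_rfl (by omega)
  have hcln : ∀ i j, i + 1 < j → j < i + k → ∀ u ∈ P i, ¬ G.Adj (n j) u := fun i j hij hj =>
    (hN.arc i).cln i j le_rfl (by omega) (by omega) (by omega) (by omega) (by omega)
  have hsep : ∀ i j, i < j → j < i + k → ∀ u ∈ P i, ∀ w ∈ P j, u ≠ w ∧ ¬ G.Adj u w := by
    intro i j hij hj u hu w hw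
    rcases Nat.lt_or_ge (j + 1) (i + k) with h | h
    · exact (hN.arc i).sep i j le_rfl hij (by omega) u hu w hw
    · have e1 : i + k = j + 1 := by omega
      have e2 : P i = P (j + 1) := by rw [← e1, hN.pP]
      have := (hN.arc j).sep j (j + 1) le_rfl (by omega) (by omega) w hw u (e2 ▸ hu)
      exact ⟨this.1.symm, fun h => this.2 h.symm⟩
  have hadj : ∀ i j, i < j → j < i + k → G.Adj (n i) (n j) := by
    intro i j hij hj
    rcases hcl i j with h | h
    · exact absurd h (hinj i j hij hj)
    · exact h
  refine ⟨x, k, n, P, ?_, hodd, ?_, ?_, ?_⟩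
  · constructor
    case m3 => omega
    case clq =>
      intro i j hi hj hij
      rcases Nat.lt_or_ge i j with h | h
      · exact hadj i j h (by omega)
      · exact (hadj j i (by omega) (by omega)).symm
    case len =>
      intro i hi
      by_contra hlen
      have hne : P i ≠ [] := (hN.arc i).ne i le_rfl (by omega)
      have h0 : 0 < (P i).length := List.length_pos_iff.2 hne
      obtain ⟨u, hu⟩ := List.length_eq_one_iff.1 (show (P i).length = 1 by omega)
      have hu' : u ∈ P i := by rw [hu]; simp
      have e1 : G.Adj (n i) u := (hfst i u hu').2 (by rw [hu]; rfl)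
      have e2 : G.Adj (n (i + 1)) u := (hlst i u hu').2 (by rw [hu]; rfl)
      have e3 := hR.df (n i) (n (i + 1)) x u (hadj i (i + 1) (by omega) (by omega))
        (hxn i).symm (hxn (i + 1)).symm e1 e2 (hfar i u hu').1.symm
      exact (hfar i u hu').2 e3
    case pth =>
      intro i hi
      exact (hN.arc i).ip i le_rfl (by omega)
    case fst =>
      intro i hi u hu
      exact hfst i u hu
    case lst =>
      intro i hi u hu
      rw [nko_mod n hN.pn i hi]
      exact hlst i u hu
    case cln =>
      intro i j hi hj hji hji' u hu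
      rcases Nat.lt_or_ge i j with h | h
      · apply hcln i j ?_ (by omega) u hu
        rcases Nat.lt_or_ge (i + 1) k with h' | h'
        · rw [Nat.mod_eq_of_lt h'] at hji'
          omega
        · omega
      · have := hcln i (j + k) ?_ (by omega) u hu
        · rwa [hN.pn] at this
        · rcases Nat.lt_or_ge (i + 1) k with h' | h'
          · omega
          · have h2 : i + 1 = k := by omega
            rw [h2, Nat.mod_self] at hji'
            omega
    case dis =>
      rintro i j hi hj u hu rfl
      exact (hfar i _ hu).2 (hxn j)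
    case sep =>
      intro i j hi hj hij u hu w hw
      rcases Nat.lt_or_ge i j with h | h
      · exact hsep i j h (by omega) u hu w hw
      · have := hsep j i (by omega) (by omega) w hw u hu
        exact ⟨this.1.symm, fun h => this.2 h.symm⟩
  · intro i hi
    exact ⟨fun h => (hfar i x h).1 rfl, (hxn i).ne⟩
  · intro v
    constructor
    · intro h
      rcases hcov v with h' | h' | ⟨i, hi, h'⟩
      · exact absurd h'.symm h.ne
      · exact h'
      · exact absurd h (hfar i v h').2
    · rintro ⟨i, hi, rfl⟩
      exact hxn i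
  · exact hcov

end Pool.Agent.Helper64.FL
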