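import Pool.Agent.Helper64.FL.Pre

set_option autoImplicit false

/-! Full list for MP_866009_co: coincidence patterns. -/

namespace Pool.Agent.Helper64.FL

open Pool.Agent.Helper64.CT Pool.Agent.Helper64.DT
open Pool.Agent.Helper64.HG (Ovl Model Circ IC HellyCircle ChordModel)

theorem pin_blt {a b : ℕ} : Nat.blt a b = true ↔ a < b := by rw [Nat.blt_eq]

theorem pin_ble {a b : ℕ} : Nat.ble a b = true ↔ a ≤ b := by rw [Nat.ble_eq]

theorem pin_beq {a b : ℕ} : Nat.beq a b = true ↔ a = b := by rw [Nat.beq_eq]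

theorem pin_nbeq {a b : ℕ} : (!(Nat.beq a b)) = true ↔ a ≠ b := by
  rw [Bool.not_eq_true', ← Bool.not_eq_true, pin_beq]

theorem pin_bf {a b : ℕ} : Nat.beq a b = false ↔ a ≠ b := by
  rw [← Bool.not_eq_true, pin_beq]

theorem pin_memp {i j : ℕ} {l : List (ℕ × ℕ)} :
    memp i j l = true ↔ (i, j) ∈ l ∨ (j, i) ∈ l := by
  induction l with
  | nil => simp [memp]
  | cons a l ih =>
    obtain ⟨a, b⟩ := a
    unfold memp
    rw [Bool.or_eq_true, Bool.or_eq_true, Bool.and_eq_true, Bool.and_eq_true, ih, pin_beq, pin_beq,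
      pin_beq, pin_beq, List.mem_cons, List.mem_cons, Prod.mk.injEq, Prod.mk.injEq]
    constructor
    · rintro ((⟨rfl, rfl⟩ | ⟨rfl, rfl⟩) | h | h)
      · exact Or.inl (Or.inl ⟨rfl, rfl⟩)
      · exact Or.inr (Or.inl ⟨rfl, rfl⟩)
      · exact Or.inl (Or.inr h)
      · exact Or.inr (Or.inr h)
    · rintro ((⟨rfl, rfl⟩ | h) | (⟨rfl, rfl⟩ | h))
      · exact Or.inl (Or.inl ⟨rfl, rfl⟩)
      · exact Or.inr (Or.inl h)
      · exact Or.inl (Or.inr ⟨rfl, rfl⟩)
      · exact Or.inr (Or.inr h)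

theorem pin_memn {i : ℕ} {l : List ℕ} : memn i l = true ↔ i ∈ l := by
  induction l with
  | nil => simp [memn]
  | cons a l ih =>
    unfold memn
    rw [Bool.or_eq_true, ih, pin_beq, List.mem_cons]
    constructor
    · rintro (h | h)
      · exact Or.inl h.symm
      · exact Or.inr h
    · rintro (h | h)
      · exact Or.inl h.symm
      · exact Or.inr h

theorem pin_dis3 {p : Pre} {i j n : ℕ} (h : dis3 p i j n = true) :
    ∃ k, (memp i k p.e = true ∧ memp j k p.d = true) ∨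
      (memp i k p.d = true ∧ memp j k p.e = true) := by
  induction n with
  | zero => simp [dis3] at h
  | succ k ih =>
    unfold dis3 at h
    rw [Bool.or_eq_true, Bool.or_eq_true, Bool.and_eq_true, Bool.and_eq_true] at h
    rcases h with (h | h) | h
    · exact ⟨k, Or.inl h⟩
    · exact ⟨k, Or.inr h⟩
    · exact ih h

theorem pin_okR {p : Pre} {j : ℕ} : ∀ {m : ℕ}, okR p j m = true → ∀ i, i < m → okd p i j = true
  | 0, _, i, hi => by omega
  | m + 1, h, i, hi => by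
    unfold okR at h
    rw [Bool.and_eq_true] at h
    rcases Nat.lt_succ_iff_lt_or_eq.1 hi with h1 | h1
    · exact pin_okR h.2 i h1
    · rw [h1]
      exact h.1

theorem pin_okA {p : Pre} : ∀ {m : ℕ}, okA p m = true → ∀ j, j < m → okR p j j = true
  | 0, _, j, hj => by omega
  | m + 1, h, j, hj => by
    unfold okA at h
    rw [Bool.and_eq_true] at h
    rcases Nat.lt_succ_iff_lt_or_eq.1 hj with h1 | h1
    · exact pin_okA h.2 j h1
    · rw [h1]
      exact h.1

/-- the content of `okI` -/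
structure pinOk (p : Pre) : Prop where
  e : ∀ x ∈ p.e, x.1 < p.n ∧ x.2 < p.n ∧ x.1 ≠ x.2
  d : ∀ x ∈ p.d, x.1 < p.n ∧ x.2 < p.n ∧ x.1 ≠ x.2
  ne : ∀ x ∈ p.ne, x.1 < p.n ∧ x.2 < p.n ∧ x.1 ≠ x.2
  q : ∀ x ∈ p.q, x.1 < x.2 ∧ x.2 < p.n
  c : ∀ x ∈ p.c, (x.2.1 < p.n ∧ x.2.2 < p.n ∧ x.2.1 ≠ x.2.2) ∧ ∀ y ∈ x.1, y.1 < p.n ∧ y.2 < p.n
  cn : ∀ x ∈ p.cn, (x.2.1 < p.n ∧ x.2.2 < p.n ∧ x.2.1 ≠ x.2.2) ∧ ∀ y ∈ x.1, y.1 < p.n ∧ y.2 < p.n
  g : ∀ x ∈ p.g, x.1 < p.n ∧ x.2.1 < p.n ∧ x.1 ≠ x.2.1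
  n : p.n ≤ 32
  a : okA p p.n = true

theorem pin_ok {p : Pre} (h : okI p = true) : pinOk p := by
  unfold okI at h
  simp only [Bool.and_eq_true, List.all_eq_true, pin_blt, pin_ble, pin_nbeq] at h
  obtain ⟨⟨⟨⟨⟨⟨⟨⟨h1, h2⟩, h3⟩, h4⟩, h5⟩, h5'⟩, h6⟩, h7⟩, h8⟩ := h
  exact ⟨fun x hx => ⟨(h1 x hx).1.1, (h1 x hx).1.2, (h1 x hx).2⟩,
    fun x hx => ⟨(h2 x hx).1.1, (h2 x hx).1.2, (h2 x hx).2⟩,
    fun x hx => ⟨(h3 x hx).1.1, (h3 x hx).1.2, (h3 x hx).2⟩,
    fun x hx => h4 x hx,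
    fun x hx => ⟨⟨(h5 x hx).1.1.1, (h5 x hx).1.1.2, (h5 x hx).1.2⟩, (h5 x hx).2⟩,
    fun x hx => ⟨⟨(h5' x hx).1.1.1, (h5' x hx).1.1.2, (h5' x hx).1.2⟩, (h5' x hx).2⟩,
    fun x hx => ⟨(h6 x hx).1.1, (h6 x hx).1.2, (h6 x hx).2⟩, h7, h8⟩

section

variable {V : Type} {G : SimpleGraph V} {p : Pre} {f : ℕ → V} {L : List (List V)}

theorem pin_e (h : PMod G p f L) {i j : ℕ} (hm : memp i j p.e = true) : G.Adj (f i) (f j) := by
  rcases pin_memp.1 hm with h1 | h1
  · exact h.e _ h1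
  · exact (h.e _ h1).symm

theorem pin_d (h : PMod G p f L) {i j : ℕ} (hm : memp i j p.d = true) :
    f i ≠ f j ∧ ¬ G.Adj (f i) (f j) := by
  rcases pin_memp.1 hm with h1 | h1
  · exact h.d _ h1
  · exact ⟨(h.d _ h1).1.symm, fun h2 => (h.d _ h1).2 h2.symm⟩

theorem pin_q (h : PMod G p f L) (ho : pinOk p) (i j : ℕ) (hij : i < j) (hj : j < p.n)
    (hf : f i = f j) : (i, j) ∈ p.q := by
  have h1 := pin_okR (pin_okA ho.a j hj) i hij
  unfold okd at h1
  rw [Bool.or_eq_true, Bool.or_eq_true, Bool.or_eq_true, Bool.or_eq_true] at h1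
  rcases h1 with (((h1 | h1) | h1) | h1) | h1
  · rcases pin_memp.1 h1 with h2 | h2
    · exact h2
    · have := (ho.q _ h2).1
      simp only at this
      omega
  · have h2 := pin_e h h1
    rw [hf] at h2
    exact absurd h2 (G.loopless.irrefl _)
  · exact absurd hf (pin_d h h1).1
  · rcases pin_memp.1 h1 with h2 | h2
    · exact absurd hf (h.ne _ h2)
    · exact absurd hf.symm (h.ne _ h2)
  · obtain ⟨k, ⟨h2, h3⟩ | ⟨h2, h3⟩⟩ := pin_dis3 h1
    · have h4 := pin_e h h2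
      rw [hf] at h4
      exact absurd h4 (pin_d h h3).2
    · have h4 := pin_e h h3
      rw [← hf] at h4
      exact absurd h4 (pin_d h h2).2

end

theorem pin_bits (htb : ∀ m i j, tb (sb m i) j = (tb m j || decide (i = j)))
    (ht0 : ∀ j, tb 0 j = false) (r : List ℕ) : ∀ l : List (ℕ × ℕ),
    (∀ x ∈ l, nu r x.1 ≠ nu r x.2) → ∃ m, bits r l = some m ∧
      ∀ k, tb m k = true → ∃ x ∈ l, k = px (nu r x.1) (nu r x.2) := by
  intro l
  induction l with
  | nil =>
    intro _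
    refine ⟨0, rfl, fun k hk => ?_⟩
    rw [ht0] at hk
    exact absurd hk (by decide)
  | cons a l ih =>
    intro h
    obtain ⟨i, j⟩ := a
    obtain ⟨m, hm, hk⟩ := ih fun x hx => h x (List.mem_cons_of_mem _ hx)
    have hne : Nat.beq (nu r i) (nu r j) = false := pin_bf.2 (h (i, j) List.mem_cons_self)
    refine ⟨sb m (px (nu r i) (nu r j)), ?_, ?_⟩
    · show (match bits r l with
        | none => none
        | some m => bif Nat.beq (nu r i) (nu r j) then none
            else some (sb m (px (nu r i) (nu r j)))) = _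
      rw [hm]
      simp only [hne, cond_false]
    · intro k h1
      rw [htb, Bool.or_eq_true, decide_eq_true_eq] at h1
      rcases h1 with h1 | h1
      · obtain ⟨x, hx, he⟩ := hk k h1
        exact ⟨x, List.mem_cons_of_mem _ hx, he⟩
      · exact ⟨(i, j), List.mem_cons_self, h1.symm⟩

theorem pin_cnd (r : List ℕ) : ∀ K : List (ℕ × ℕ), cnd r K = true ↔
    ∀ y ∈ K, nu r y.1 ≠ nu r y.2
  | [] => by simp [cnd]
  | (i, j) :: K => by
    unfold cnd
    rw [Bool.and_eq_true, pin_nbeq, pin_cnd r K, List.forall_mem_cons]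

theorem pin_cnk (r : List ℕ) : ∀ l : List (List (ℕ × ℕ) × ℕ × ℕ),
    (∀ x ∈ l, (∀ y ∈ x.1, nu r y.1 ≠ nu r y.2) → nu r x.2.1 ≠ nu r x.2.2) → cnk r l = true
  | [], _ => rfl
  | (K, x, y) :: l, h => by
    unfold cnk
    rw [Bool.and_eq_true]
    refine ⟨?_, pin_cnk r l fun z hz => h z (List.mem_cons_of_mem _ hz)⟩
    rw [Bool.not_eq_true', ← Bool.not_eq_true, Bool.and_eq_true, pin_cnd, pin_beq]
    rintro ⟨h1, h2⟩
    exact h (K, x, y) List.mem_cons_self h1 h2

theorem pin_bitc (htb : ∀ m i j, tb (sb m i) j = (tb m j || decide (i = j)))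
    (ht0 : ∀ j, tb 0 j = false) (r : List ℕ) : ∀ l : List (List (ℕ × ℕ) × ℕ × ℕ),
    (∀ x ∈ l, (∀ y ∈ x.1, nu r y.1 ≠ nu r y.2) → nu r x.2.1 ≠ nu r x.2.2) →
    ∃ m, bitc r l = some m ∧
      ∀ k, tb m k = true → ∃ x ∈ l, (∀ y ∈ x.1, nu r y.1 ≠ nu r y.2) ∧
        k = px (nu r x.2.1) (nu r x.2.2) := by
  intro l
  induction l with
  | nil =>
    intro _
    refine ⟨0, rfl, fun k hk => ?_⟩
    rw [ht0] at hk
    exact absurd hk (by decide)
  | cons a l ih =>
    intro h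
    obtain ⟨K, x, y⟩ := a
    obtain ⟨m, hm, hk⟩ := ih fun x hx => h x (List.mem_cons_of_mem _ hx)
    cases hK : cnd r K with
    | false =>
      refine ⟨m, ?_, ?_⟩
      · show (match bitc r l with
          | none => none
          | some m => bif cnd r K then
              bif Nat.beq (nu r x) (nu r y) then none
                else some (sb m (px (nu r x) (nu r y)))
              else some m) = _
        rw [hm]
        simp only [hK, cond_false]
      · intro k h1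
        obtain ⟨x, hx, he⟩ := hk k h1
        exact ⟨x, List.mem_cons_of_mem _ hx, he⟩
    | true =>
      have hK1 := (pin_cnd r K).1 hK
      have hne2 : Nat.beq (nu r x) (nu r y) = false :=
        pin_bf.2 (h (K, x, y) List.mem_cons_self hK1)
      refine ⟨sb m (px (nu r x) (nu r y)), ?_, ?_⟩
      · show (match bitc r l with
          | none => none
          | some m => bif cnd r K then
              bif Nat.beq (nu r x) (nu r y) then none
                else some (sb m (px (nu r x) (nu r y)))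
              else some m) = _
        rw [hm]
        simp only [hK, hne2, cond_false, cond_true]
      · intro k h1
        rw [htb, Bool.or_eq_true, decide_eq_true_eq] at h1
        rcases h1 with h1 | h1
        · obtain ⟨x, hx, he⟩ := hk k h1
          exact ⟨x, List.mem_cons_of_mem _ hx, he⟩
        · exact ⟨(K, x, y), List.mem_cons_self, hK1, h1.symm⟩

theorem pin_mku (htb : ∀ m i j, tb (sb m i) j = (tb m j || decide (i = j)))
    (ht0 : ∀ j, tb 0 j = false) (r U : List ℕ) (n i : ℕ) (h : tb (mku r U n) i = true) :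
    ∃ k, k < n ∧ k ∉ U ∧ nu r k = i := by
  induction n with
  | zero =>
    unfold mku at h
    rw [ht0] at h
    exact absurd h (by decide)
  | succ n ih =>
    unfold mku at h
    cases hm : memn n U with
    | true =>
      rw [hm, cond_true] at h
      obtain ⟨k, h1, h2, h3⟩ := ih h
      exact ⟨k, by omega, h2, h3⟩
    | false =>
      rw [hm, cond_false, htb, Bool.or_eq_true, decide_eq_true_eq] at h
      rcases h with h | h
      · obtain ⟨k, h1, h2, h3⟩ := ih h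
        exact ⟨k, by omega, h2, h3⟩
      · refine ⟨n, by omega, ?_, h⟩
        intro h4
        rw [pin_memn.2 h4] at hm
        exact absurd hm (by decide)

/-- the segments with their interiors -/
def pinL {V : Type} (r : List ℕ) (n : ℕ) : List (ℕ × ℕ × List ℕ) → List (List V) →
    List (Seg × List V)
  | [], _ => []
  | _ :: _, [] => []
  | (u, w, U) :: l, A :: L => bif Nat.beq (nu r u) (nu r w) then pinL r n l L else
      (⟨nu r u, nu r w, clr (clr (mku r U n) (nu r u)) (nu r w)⟩, A) :: pinL r n l L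

theorem pinL_map {V : Type} (r : List ℕ) (n : ℕ) : ∀ (g : List (ℕ × ℕ × List ℕ))
    (L : List (List V)), L.length = g.length → (pinL r n g L).map Prod.fst = segl r n g
  | [], L, _ => by
    simp [pinL, segl]
  | (u, w, U) :: g, [], h => by
    simp at h
  | (u, w, U) :: g, A :: L, h => by
    have ih := pinL_map r n g L (by simpa using h)
    unfold pinL segl
    cases hb : Nat.beq (nu r u) (nu r w)
    · rw [cond_false, cond_false, List.map_cons, ih]
    · rw [cond_true, cond_true, ih]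

theorem pinL_mem {V : Type} (r : List ℕ) (n : ℕ) : ∀ (g : List (ℕ × ℕ × List ℕ))
    (L : List (List V)) (y : Seg × List V), y ∈ pinL r n g L → ∃ z ∈ g.zip L,
      nu r z.1.1 ≠ nu r z.1.2.1 ∧ y = (⟨nu r z.1.1, nu r z.1.2.1,
        clr (clr (mku r z.1.2.2 n) (nu r z.1.1)) (nu r z.1.2.1)⟩, z.2)
  | [], L, y, h => by
    simp [pinL] at h
  | (u, w, U) :: g, [], y, h => by
    simp [pinL] at h
  | (u, w, U) :: g, A :: L, y, h => by
    unfold pinL at h
    cases hb : Nat.beq (nu r u) (nu r w)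
    · rw [hb, cond_false, List.mem_cons] at h
      rcases h with h | h
      · exact ⟨((u, w, U), A), List.mem_cons_self, pin_bf.1 hb, h⟩
      · obtain ⟨z, hz, h1⟩ := pinL_mem r n g L y h
        exact ⟨z, List.mem_cons_of_mem _ hz, h1⟩
    · rw [hb, cond_true] at h
      obtain ⟨z, hz, h1⟩ := pinL_mem r n g L y h
      exact ⟨z, List.mem_cons_of_mem _ hz, h1⟩

theorem pin_zip {α β : Type} {g : List α} {L : List β} {z : α × β} (h : z ∈ g.zip L) :
    z.1 ∈ g ∧ z.2 ∈ L := by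
  obtain ⟨a, b⟩ := z
  exact List.of_mem_zip h

theorem pinL_pw {V : Type} (R : List V → List V → Prop) (r : List ℕ) (n : ℕ) :
    ∀ (g : List (ℕ × ℕ × List ℕ)) (L : List (List V)), L.Pairwise R →
      (pinL r n g L).Pairwise (fun p q => R p.2 q.2)
  | [], L, _ => by
    simp [pinL]
  | (u, w, U) :: g, [], _ => by
    simp [pinL]
  | (u, w, U) :: g, A :: L, h => by
    rw [List.pairwise_cons] at h
    have ih := pinL_pw R r n g L h.2
    unfold pinL
    cases hb : Nat.beq (nu r u) (nu r w)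
    · rw [cond_false, List.pairwise_cons]
      refine ⟨?_, ih⟩
      intro y hy
      obtain ⟨z, hz, -, rfl⟩ := pinL_mem r n g L y hy
      exact h.1 _ (pin_zip hz).2
    · rw [cond_true]
      exact ih

theorem st_PIN (h1 : ST_RPS) (h2 : ST_NUB) (h3 : ST_TBS) (h4 : ST_PXI) : ST_PIN := by
  intro V G p f L hM hO
  have ho := pin_ok hO
  obtain ⟨htb, -, hlor, hland, -, ht0, hsub, hclr, -, -⟩ := h3
  obtain ⟨hpx1, hpx2, -, -, -⟩ := h4
  obtain ⟨ch, hch, hcons, hlen, hrep, heq⟩ := h1 V p.n p.q f ho.q (pin_q hM ho)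
  set r : List ℕ := reps p.q ch (idl p.n) with hr
  obtain ⟨hn1, hn2, hn3, hn4⟩ := h2 p.n r hrep
  have hnf : ∀ i j, i < p.n → j < p.n → (nu r i = nu r j ↔ f i = f j) := fun i j hi hj =>
    (hn2 i j hi hj).trans (heq i j hi hj)
  have hn32 : cnt r p.n ≤ 32 := hn4.trans ho.n
  have hl32 : ∀ i, i < p.n → nu r i < 32 := fun i hi => (hn1 i hi).trans_le hn32
  -- the bits
  obtain ⟨e, he, he1⟩ := pin_bits htb ht0 r p.e (by
    intro x hx h5
    have h6 := hM.e x hx
    rw [(hnf _ _ (ho.e x hx).1 (ho.e x hx).2.1).1 h5] at h6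
    exact G.loopless.irrefl _ h6)
  obtain ⟨d, hd, hd1⟩ := pin_bits htb ht0 r p.d (by
    intro x hx h5
    exact (hM.d x hx).1 ((hnf _ _ (ho.d x hx).1 (ho.d x hx).2.1).1 h5))
  obtain ⟨c, hc, hc1⟩ := pin_bitc htb ht0 r p.c (by
    intro x hx h5 h6
    have h7 := ho.c x hx
    exact (hM.c x hx (fun y hy h8 => h5 y hy
      ((hnf _ _ (h7.2 y hy).1 (h7.2 y hy).2).2 h8))).1 ((hnf _ _ h7.1.1 h7.1.2.1).1 h6))
  have hcn : cnk r p.cn = true := pin_cnk r p.cn (by
    intro x hx h5 h6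
    have h7 := ho.cn x hx
    exact hM.cn x hx (fun y hy h8 => h5 y hy
      ((hnf _ _ (h7.2 y hy).1 (h7.2 y hy).2).2 h8)) ((hnf _ _ h7.1.1 h7.1.2.1).1 h6))
  have hE : ∀ k, tb e k = true → ∃ a b, a < p.n ∧ b < p.n ∧ k = px (nu r a) (nu r b) ∧
      G.Adj (f a) (f b) := by
    intro k hk
    obtain ⟨x, hx, hk⟩ := he1 k hk
    exact ⟨x.1, x.2, (ho.e x hx).1, (ho.e x hx).2.1, hk, hM.e x hx⟩
  have hD : ∀ k, tb (Nat.lor d c) k = true → ∃ a b, a < p.n ∧ b < p.n ∧
      k = px (nu r a) (nu r b) ∧ ¬ G.Adj (f a) (f b) := by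
    intro k hk
    rw [hlor, Bool.or_eq_true] at hk
    rcases hk with hk | hk
    · obtain ⟨x, hx, hk⟩ := hd1 k hk
      exact ⟨x.1, x.2, (ho.d x hx).1, (ho.d x hx).2.1, hk, (hM.d x hx).2⟩
    · obtain ⟨x, hx, hne, hk⟩ := hc1 k hk
      have h7 := ho.c x hx
      exact ⟨x.2.1, x.2.2, h7.1.1, h7.1.2.1, hk,
        (hM.c x hx (fun y hy h8 => hne y hy ((hnf _ _ (h7.2 y hy).1 (h7.2 y hy).2).2 h8))).2⟩
  have hED : ∀ k, tb (Nat.land e (Nat.lor d c)) k = false := by
    intro k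
    rw [← Bool.not_eq_true, hland, Bool.and_eq_true]
    rintro ⟨h5, h6⟩
    obtain ⟨a, b, ha, hb, hk, hadj⟩ := hE k h5
    obtain ⟨a', b', ha', hb', hk', hnad⟩ := hD k h6
    rcases hpx2 _ _ _ _ (hl32 a ha) (hl32 b hb) (hl32 a' ha') (hl32 b' hb') (hk.symm.trans hk')
      with ⟨h7, h8⟩ | ⟨h7, h8⟩
    · rw [hnf _ _ ha ha'] at h7
      rw [hnf _ _ hb hb'] at h8
      rw [h7, h8] at hadj
      exact hnad hadj
    · rw [hnf _ _ ha hb'] at h7
      rw [hnf _ _ hb ha'] at h8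
      rw [h7, h8] at hadj
      exact hnad hadj.symm
  have hzero : Nat.land e (Nat.lor d c) = 0 := by
    have h5 : sub (Nat.land e (Nat.lor d c)) 0 = true := by
      rw [hsub]
      intro i hi
      rw [hED] at hi
      exact absurd hi (by decide)
    unfold sub at h5
    rw [pin_beq] at h5
    have h6 : ∀ a : ℕ, Nat.land a 0 = 0 := fun a => Nat.and_zero a
    rw [h6] at h5
    exact h5.symm
  -- the state
  have hinst : inst p ch = some ⟨cnt r p.n, e, Nat.lor d c, segl r p.n p.g⟩ := by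
    unfold inst
    rw [← hr, he, hd, hc]
    simp only [hzero, hcn, hcons]
    rfl
  -- the new map
  classical
  set f' : ℕ → V := fun m => if h : ∃ i, i < p.n ∧ nu r i = m then f h.choose else f 0 with hf'
  have hf1 : ∀ i, i < p.n → f' (nu r i) = f i := by
    intro i hi
    have hex : ∃ k, k < p.n ∧ nu r k = nu r i := ⟨i, hi, rfl⟩
    rw [hf']
    simp only [dif_pos hex]
    exact (hnf _ _ hex.choose_spec.1 hi).1 hex.choose_spec.2
  have hf2 : ∀ m, m < cnt r p.n → ∃ i, i < p.n ∧ nu r i = m ∧ f' m = f i := by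
    intro m hm
    obtain ⟨i, hi, h5⟩ := hn3 m hm
    refine ⟨i, hi, h5, ?_⟩
    rw [← h5]
    exact hf1 i hi
  refine ⟨ch, _, hch, hinst, f', pinL r p.n p.g L, ?_, ?_, ?_⟩
  · refine ⟨hn32, fun i hi => hi, ?_, ?_, ?_, pinL_map r p.n p.g L hM.len, ?_, ?_, ?_, ?_, ?_⟩
    · intro i j hi hj hij
      obtain ⟨a, ha, h5, h6⟩ := hf2 i hi
      obtain ⟨b, hb, h7, h8⟩ := hf2 j hj
      rw [← h5, ← h7, hnf a b ha hb, ← h6, ← h8]
      exact hij
    · intro i j hi hj hij
      obtain ⟨a, b, ha, hb, hk, hadj⟩ := hE _ hij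
      rcases hpx2 _ _ _ _ hi hj (hl32 a ha) (hl32 b hb) hk with ⟨h7, h8⟩ | ⟨h7, h8⟩
      · rw [h7, h8]
        refine ⟨hn1 a ha, hn1 b hb, fun _ => ?_⟩
        rw [hf1 a ha, hf1 b hb]
        exact hadj
      · rw [h7, h8]
        refine ⟨hn1 b hb, hn1 a ha, fun _ => ?_⟩
        rw [hf1 a ha, hf1 b hb]
        exact hadj.symm
    · intro i j hi hj hij
      obtain ⟨a, b, ha, hb, hk, hadj⟩ := hD _ hij
      rcases hpx2 _ _ _ _ hi hj (hl32 a ha) (hl32 b hb) hk with ⟨h7, h8⟩ | ⟨h7, h8⟩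
      · rw [h7, h8]
        refine ⟨hn1 a ha, hn1 b hb, fun _ => ?_⟩
        rw [hf1 a ha, hf1 b hb]
        exact hadj
      · rw [h7, h8]
        refine ⟨hn1 b hb, hn1 a ha, fun _ h9 => ?_⟩
        rw [hf1 a ha, hf1 b hb] at h9
        exact hadj h9.symm
    · intro y hy
      obtain ⟨z, hz, hne, rfl⟩ := pinL_mem r p.n p.g L y hy
      have h5 := ho.g _ (pin_zip hz).1
      exact ⟨hn1 _ h5.1, hn1 _ h5.2.1, hne⟩
    · intro y hy
      obtain ⟨z, hz, hne, rfl⟩ := pinL_mem r p.n p.g L y hy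
      have h5 := ho.g _ (pin_zip hz).1
      show IPt G (f' (nu r z.1.1) :: (z.2 ++ [f' (nu r z.1.2.1)]))
      rw [hf1 _ h5.1, hf1 _ h5.2.1]
      exact hM.pth z hz fun h6 => hne ((hnf _ _ h5.1 h5.2.1).2 h6)
    · intro y hy x hx i hi h6
      obtain ⟨z, hz, hne, rfl⟩ := pinL_mem r p.n p.g L y hy
      obtain ⟨a, ha, h7, h8⟩ := hf2 i hi
      rw [h8] at h6
      rw [h6] at hx
      exact hM.dis z hz a ha hx
    · intro y hy i hi
      obtain ⟨z, hz, hne, rfl⟩ := pinL_mem r p.n p.g L y hy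
      have h5 := ho.g _ (pin_zip hz).1
      simp only at hi ⊢
      rw [hclr, hclr, Bool.and_eq_true, Bool.and_eq_true] at hi
      obtain ⟨⟨h6, h7⟩, h8⟩ := hi
      have h7' : nu r z.1.1 ≠ i := by
        intro h9
        rw [decide_eq_true h9] at h7
        exact absurd h7 (by decide)
      have h8' : nu r z.1.2.1 ≠ i := by
        intro h9
        rw [decide_eq_true h9] at h8
        exact absurd h8 (by decide)
      obtain ⟨k, hk, hkU, h9⟩ := pin_mku htb ht0 r _ _ _ h6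
      rw [← h9]
      refine ⟨hn1 k hk, ?_, ?_, ?_⟩
      · intro h10
        exact h7' (h10.symm.trans h9)
      · intro h10
        exact h8' (h10.symm.trans h9)
      · intro x hx
        rw [hf1 k hk]
        refine hM.cln z hz k hk hkU ?_ ?_ x hx
        · intro h10
          rw [← hnf _ _ hk h5.1] at h10
          exact h7' (h10.symm.trans h9)
        · intro h10
          rw [← hnf _ _ hk h5.2.1] at h10
          exact h8' (h10.symm.trans h9)
    · exact pinL_pw _ r p.n p.g L hM.sep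
  · intro i hi
    obtain ⟨a, ha, -, h8⟩ := hf2 i hi
    exact ⟨a, ha, h8⟩
  · intro y hy x hx
    obtain ⟨z, hz, hne, rfl⟩ := pinL_mem r p.n p.g L y hy
    exact ⟨z.2, (pin_zip hz).2, hx⟩

end Pool.Agent.Helper64.FL
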