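import Pool.Agent.Helper64.FL.StG

/-! Full list for MP_866009_co: the eight configurations preBB. -/

set_option autoImplicit false

namespace Pool.Agent.Helper64.FL

open Pool.Agent.Helper64.CT Pool.Agent.Helper64.DT
open Pool.Agent.Helper64.HG (Ovl Model Circ IC HellyCircle ChordModel)

theorem qbb_far {V : Type} {G : SimpleGraph V} {x y u : V} (h : u ∈ KC G x y) :
    x ≠ u ∧ ¬ G.Adj x u := by
  obtain ⟨_, hz, _⟩ := h
  exact ⟨fun e => hz.1 e.symm, hz.2⟩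

theorem qbb_nn {V : Type} {G : SimpleGraph V} {x y u n : V} (h : u ∈ KC G x y)
    (hn : G.Adj x n) : n ≠ u := by
  rintro rfl
  exact (qbb_far h).2 hn

theorem qbb_att {V : Type} {G : SimpleGraph V} {x y u n : V} (hn : G.Adj x n)
    (ha : n ∉ Att G x y) (h : u ∈ KC G x y) : ¬ G.Adj u n :=
  fun e => ha ⟨hn, u, h, e.symm⟩

theorem qbb_tri {V : Type} {G : SimpleGraph V} {a w : V} {l : List V} (h : Pth G a l w)
    (e : a = w) : l = [] := by
  rcases h with h | h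
  · exact h.2
  · exact absurd e h.1

theorem qbb_pth {V : Type} {G : SimpleGraph V} {a w : V} {l : List V} (h : Pth G a l w)
    (e : a ≠ w) : IPt G (a :: (l ++ [w])) := by
  rcases h with h | h
  · exact absurd h.1 e
  · exact h.2

/-- symbols: 0=x 1=a 2=b 3=a' 4=t 5=w 6=y 7=bl 8=br 9=cl 10=cr -/
def qbb_P1 (wa wb ya yb : ℕ) : Pre :=
  ⟨11,
    [(0, 1), (0, 2), (0, 3), (4, 1), (4, 2), (4, 3), (5, wa), (6, ya), (7, 1), (8, 2), (9, 3), (10, 2)],
    [(0, 4), (0, 5), (5, wb), (0, 6), (6, yb), (0, 7), (7, 4), (7, 5), (7, 6), (0, 8), (8, 4), (8, 5), (8, 6), (7, 3), (8, 3), (0, 9), (9, 4), (9, 5), (9, 6), (9, 7), (9, 8), (0, 10), (10, 4), (10, 5), (10, 6), (10, 7), (10, 8), (9, 1), (10, 1)],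
    [(1, 2), (1, 3), (2, 3), (4, 6)],
    [(5, 6), (7, 8), (9, 10)],
    [([(6, 5)], 4, 5), ([(7, 8)], 7, 2), ([(7, 8)], 8, 1), ([(9, 10)], 9, 2), ([(9, 10)], 10, 3)],
    [],
    [(4, 6, [1, 2, 3]), (6, 5, [1, 2, 3]), (7, 8, []), (9, 10, [])]⟩

/-- symbols: 0=x 1=a 2=b 3=a' 4=t 5=w 6=y 7=f 8=y2 9=bl 10=br 11=cl 12=cr -/
def qbb_P0 (wa wb ya yb : ℕ) : Pre :=
  ⟨13,
    [(0, 1), (0, 2), (0, 3), (4, 1), (4, 2), (4, 3), (5, wa), (6, ya), (8, 7), (9, 1), (10, 2), (11, 3), (12, 2)],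
    [(0, 4), (0, 5), (5, wb), (0, 6), (6, yb), (0, 7), (0, 8), (0, 9), (9, 4), (9, 5), (9, 6), (9, 7), (9, 8), (0, 10), (10, 4), (10, 5), (10, 6), (10, 7), (10, 8), (9, 3), (10, 3), (0, 11), (11, 4), (11, 5), (11, 6), (11, 7), (11, 8), (11, 9), (11, 10), (0, 12), (12, 4), (12, 5), (12, 6), (12, 7), (12, 8), (12, 9), (12, 10), (11, 1), (12, 1)],
    [(1, 2), (1, 3), (2, 3), (8, 4), (8, 5), (6, 4), (6, 7), (6, 5)],
    [(4, 7), (5, 7), (6, 8), (9, 10), (11, 12)],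
    [([(4, 7), (7, 5)], 4, 5), ([(4, 7)], 4, 8), ([(6, 8)], 6, 4), ([(6, 8)], 6, 7), ([(6, 8)], 6, 5), ([(9, 10)], 9, 2), ([(9, 10)], 10, 1), ([(11, 12)], 11, 2), ([(11, 12)], 12, 3)],
    [],
    [(4, 7, [1, 2, 3]), (7, 5, [1, 2, 3, 6, 8]), (6, 8, [1, 2, 3]), (9, 10, []), (11, 12, [])]⟩

theorem qbb_e1 : preBB001 = qbb_P1 1 2 3 2 ∧ preBB011 = qbb_P1 1 2 2 3 ∧
    preBB101 = qbb_P1 2 1 3 2 ∧ preBB111 = qbb_P1 2 1 2 3 := ⟨rfl, rfl, rfl, rfl⟩

theorem qbb_e0 : preBB000 = qbb_P0 1 2 3 2 ∧ preBB010 = qbb_P0 1 2 2 3 ∧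
    preBB100 = qbb_P0 2 1 3 2 ∧ preBB110 = qbb_P0 2 1 2 3 := ⟨rfl, rfl, rfl, rfl⟩


theorem qbb_on (hB : ST_PTB) {V : Type} (G : SimpleGraph V) (K1 K2 K3 : Set V) (wa wb ya yb : ℕ)
    (x a b a' t w y l l' r r' : V) (l1 l2 L R : List V)
    (A12 : Anti G K1 K2) (A13 : Anti G K1 K3) (A23 : Anti G K2 K3)
    (F1 : ∀ u ∈ K1, x ≠ u ∧ ¬ G.Adj x u) (F2 : ∀ u ∈ K2, x ≠ u ∧ ¬ G.Adj x u)
    (F3 : ∀ u ∈ K3, x ≠ u ∧ ¬ G.Adj x u)
    (xa : G.Adj x a) (xb : G.Adj x b) (xa' : G.Adj x a') (a'b : a' ≠ b) (a'a : a' ≠ a)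
    (ab : a ≠ b) (N2 : ∀ u ∈ K2, ¬ G.Adj u a') (N3 : ∀ u ∈ K3, ¬ G.Adj u a)
    (ta : G.Adj t a) (tb : G.Adj t b) (ta' : G.Adj t a')
    (hwa : G.Adj w ([x, a, b, a', t, w, y, l, l', r, r'].getD wa x))
    (hwb : w ≠ [x, a, b, a', t, w, y, l, l', r, r'].getD wb x ∧
      ¬ G.Adj w ([x, a, b, a', t, w, y, l, l', r, r'].getD wb x))
    (hya : G.Adj y ([x, a, b, a', t, w, y, l, l', r, r'].getD ya x))
    (hyb : y ≠ [x, a, b, a', t, w, y, l, l', r, r'].getD yb x ∧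
      ¬ G.Adj y ([x, a, b, a', t, w, y, l, l', r, r'].getD yb x))
    (ty : t ≠ y) (hP : P2 G K1 t l1 y l2 w) (hl : Lnk G K2 a b l L l') (hr : Lnk G K3 a' b r R r') :
    PMod G (qbb_P1 wa wb ya yb) (fun i => [x, a, b, a', t, w, y, l, l', r, r'].getD i x)
      [l1, l2, L, R] := by
  have hT := hP.aK
  have hW := hP.wK
  have hY := hP.fK
  have hL := hl.lK
  have hL' := hl.rK
  have hR := hr.lK
  have hR' := hr.rK
  have M1 := hP.l1K
  have M2 := hP.l2K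
  have M3 := hl.LK
  have M4 := hr.LK
  have E1 : ∀ n, G.Adj x n → ∀ u ∈ K1, n ≠ u := fun n hn u hu e => (F1 u hu).2 (e ▸ hn)
  have E2 : ∀ n, G.Adj x n → ∀ u ∈ K2, n ≠ u := fun n hn u hu e => (F2 u hu).2 (e ▸ hn)
  have E3 : ∀ n, G.Adj x n → ∀ u ∈ K3, n ≠ u := fun n hn u hu e => (F3 u hu).2 (e ▸ hn)
  have E1' : ∀ n, G.Adj x n → ∀ u ∈ K1, u ≠ n := fun n hn u hu e => (F1 u hu).2 (e ▸ hn)
  have E2' : ∀ n, G.Adj x n → ∀ u ∈ K2, u ≠ n := fun n hn u hu e => (F2 u hu).2 (e ▸ hn)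
  have E3' : ∀ n, G.Adj x n → ∀ u ∈ K3, u ≠ n := fun n hn u hu e => (F3 u hu).2 (e ▸ hn)
  have A21 : Anti G K2 K1 := fun u hu v hv => ⟨(A12 v hv u hu).1.symm, fun e => (A12 v hv u hu).2 e.symm⟩
  have A31 : Anti G K3 K1 := fun u hu v hv => ⟨(A13 v hv u hu).1.symm, fun e => (A13 v hv u hu).2 e.symm⟩
  have A32 : Anti G K3 K2 := fun u hu v hv => ⟨(A23 v hv u hu).1.symm, fun e => (A23 v hv u hu).2 e.symm⟩
  have P1 := (hB V G).2.1 _ _ _ hP.p1
  have P2 := (hB V G).2.1 _ _ _ hP.p2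
  have P3 := (hB V G).2.1 _ _ _ hl.pth
  have P4 := (hB V G).2.1 _ _ _ hr.pth
  have W1 : w ∉ l1 := by
    rcases eq_or_ne y w with e | e
    · exact e ▸ P1.2.1
    · exact fun h => (hP.l1w e w h).1 rfl
  have T2 : t ∉ l2 := by
    rcases eq_or_ne t y with e | e
    · rw [e]
      exact P2.1
    · exact fun h => (hP.al2 e t h).1 rfl
  constructor
  case e =>
    simp only [qbb_P1, List.forall_mem_cons, List.getD_cons_zero, List.getD_cons_succ]
    exact ⟨xa, xb, xa', ta, tb, ta', hwa, hya, hl.la, hl.rb, hr.la, hr.rb, by simp⟩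
  case d =>
    simp only [qbb_P1, List.forall_mem_cons, List.getD_cons_zero, List.getD_cons_succ]
    exact ⟨F1 _ hT, F1 _ hW, hwb, F1 _ hY, hyb, F2 _ hL, A21 _ hL _ hT, A21 _ hL _ hW,
      A21 _ hL _ hY, F2 _ hL', A21 _ hL' _ hT, A21 _ hL' _ hW, A21 _ hL' _ hY,
      ⟨E2' _ xa' _ hL, N2 _ hL⟩, ⟨E2' _ xa' _ hL', N2 _ hL'⟩, F3 _ hR, A31 _ hR _ hT,
      A31 _ hR _ hW, A31 _ hR _ hY, A32 _ hR _ hL, A32 _ hR _ hL', F3 _ hR', A31 _ hR' _ hT,
      A31 _ hR' _ hW, A31 _ hR' _ hY, A32 _ hR' _ hL, A32 _ hR' _ hL',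
      ⟨E3' _ xa _ hR, N3 _ hR⟩, ⟨E3' _ xa _ hR', N3 _ hR'⟩, by simp⟩
  case ne =>
    simp only [qbb_P1, List.forall_mem_cons, List.getD_cons_zero, List.getD_cons_succ]
    exact ⟨ab, a'a.symm, a'b.symm, ty, by simp⟩
  case c =>
    simp only [qbb_P1, List.forall_mem_cons, List.getD_cons_zero, List.getD_cons_succ]
    refine ⟨fun h => hP.aw ty h.1, fun h => ⟨E2' _ xb _ hL, (hl.lr h.1).1⟩,
      fun h => ⟨E2' _ xa _ hL', (hl.lr h.1).2⟩, fun h => ⟨E3' _ xb _ hR, (hr.lr h.1).1⟩,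
      fun h => ⟨E3' _ xa' _ hR', (hr.lr h.1).2⟩, by simp⟩
  case cn =>
    simp [qbb_P1]
  case len =>
    rfl
  case tri =>
    simp only [qbb_P1, List.zip_cons_cons, List.forall_mem_cons, List.getD_cons_zero,
      List.getD_cons_succ]
    exact ⟨qbb_tri hP.p1, qbb_tri hP.p2, qbb_tri hl.pth, qbb_tri hr.pth, by simp⟩
  case pth =>
    simp only [qbb_P1, List.zip_cons_cons, List.forall_mem_cons, List.getD_cons_zero,
      List.getD_cons_succ]
    exact ⟨qbb_pth hP.p1, qbb_pth hP.p2, qbb_pth hl.pth, qbb_pth hr.pth, by simp⟩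
  case dis =>
    simp only [qbb_P1, List.zip_cons_cons, List.forall_mem_cons]
    refine ⟨?_, ?_, ?_, ?_, by simp⟩
    · intro i hi
      interval_cases i <;> simp only [List.getD_cons_zero, List.getD_cons_succ]
      · exact fun h => (F1 _ (M1 _ h)).1 rfl
      · exact fun h => E1 _ xa _ (M1 _ h) rfl
      · exact fun h => E1 _ xb _ (M1 _ h) rfl
      · exact fun h => E1 _ xa' _ (M1 _ h) rfl
      · exact P1.1
      · exact W1
      · exact P1.2.1
      · exact fun h => (A21 _ hL _ (M1 _ h)).1 rfl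
      · exact fun h => (A21 _ hL' _ (M1 _ h)).1 rfl
      · exact fun h => (A31 _ hR _ (M1 _ h)).1 rfl
      · exact fun h => (A31 _ hR' _ (M1 _ h)).1 rfl
    · intro i hi
      interval_cases i <;> simp only [List.getD_cons_zero, List.getD_cons_succ]
      · exact fun h => (F1 _ (M2 _ h)).1 rfl
      · exact fun h => E1 _ xa _ (M2 _ h) rfl
      · exact fun h => E1 _ xb _ (M2 _ h) rfl
      · exact fun h => E1 _ xa' _ (M2 _ h) rfl
      · exact T2
      · exact P2.2.1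
      · exact P2.1
      · exact fun h => (A21 _ hL _ (M2 _ h)).1 rfl
      · exact fun h => (A21 _ hL' _ (M2 _ h)).1 rfl
      · exact fun h => (A31 _ hR _ (M2 _ h)).1 rfl
      · exact fun h => (A31 _ hR' _ (M2 _ h)).1 rfl
    · intro i hi
      interval_cases i <;> simp only [List.getD_cons_zero, List.getD_cons_succ]
      · exact fun h => (F2 _ (M3 _ h)).1 rfl
      · exact fun h => E2 _ xa _ (M3 _ h) rfl
      · exact fun h => E2 _ xb _ (M3 _ h) rfl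
      · exact fun h => E2 _ xa' _ (M3 _ h) rfl
      · exact fun h => (A12 _ hT _ (M3 _ h)).1 rfl
      · exact fun h => (A12 _ hW _ (M3 _ h)).1 rfl
      · exact fun h => (A12 _ hY _ (M3 _ h)).1 rfl
      · exact P3.1
      · exact P3.2.1
      · exact fun h => (A32 _ hR _ (M3 _ h)).1 rfl
      · exact fun h => (A32 _ hR' _ (M3 _ h)).1 rfl
    · intro i hi
      interval_cases i <;> simp only [List.getD_cons_zero, List.getD_cons_succ]
      · exact fun h => (F3 _ (M4 _ h)).1 rfl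
      · exact fun h => E3 _ xa _ (M4 _ h) rfl
      · exact fun h => E3 _ xb _ (M4 _ h) rfl
      · exact fun h => E3 _ xa' _ (M4 _ h) rfl
      · exact fun h => (A13 _ hT _ (M4 _ h)).1 rfl
      · exact fun h => (A13 _ hW _ (M4 _ h)).1 rfl
      · exact fun h => (A13 _ hY _ (M4 _ h)).1 rfl
      · exact fun h => (A23 _ hL _ (M4 _ h)).1 rfl
      · exact fun h => (A23 _ hL' _ (M4 _ h)).1 rfl
      · exact P4.1
      · exact P4.2.1
  case cln =>
    simp only [qbb_P1, List.zip_cons_cons, List.forall_mem_cons]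
    refine ⟨?_, ?_, ?_, ?_, by simp⟩
    · intro i hi hU h1 h2 u hu
      interval_cases i <;> simp only [List.getD_cons_zero, List.getD_cons_succ] at h1 h2 ⊢
      · exact (F1 _ (M1 _ hu)).2
      · exact absurd (by simp) hU
      · exact absurd (by simp) hU
      · exact absurd (by simp) hU
      · exact absurd rfl h1
      · exact fun e => (hP.l1w h2.symm u hu).2 e.symm
      · exact absurd rfl h2
      · exact (A21 _ hL _ (M1 _ hu)).2
      · exact (A21 _ hL' _ (M1 _ hu)).2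
      · exact (A31 _ hR _ (M1 _ hu)).2
      · exact (A31 _ hR' _ (M1 _ hu)).2
    · intro i hi hU h1 h2 u hu
      interval_cases i <;> simp only [List.getD_cons_zero, List.getD_cons_succ] at h1 h2 ⊢
      · exact (F1 _ (M2 _ hu)).2
      · exact absurd (by simp) hU
      · exact absurd (by simp) hU
      · exact absurd (by simp) hU
      · exact (hP.al2 h1 u hu).2
      · exact absurd rfl h2
      · exact absurd rfl h1
      · exact (A21 _ hL _ (M2 _ hu)).2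
      · exact (A21 _ hL' _ (M2 _ hu)).2
      · exact (A31 _ hR _ (M2 _ hu)).2
      · exact (A31 _ hR' _ (M2 _ hu)).2
    · intro i hi hU h1 h2 u hu
      interval_cases i <;> simp only [List.getD_cons_zero, List.getD_cons_succ] at h1 h2 ⊢
      · exact (F2 _ (M3 _ hu)).2
      · exact fun e => (hl.Lab u hu).1 e.symm
      · exact fun e => (hl.Lab u hu).2 e.symm
      · exact fun e => N2 _ (M3 _ hu) e.symm
      · exact (A12 _ hT _ (M3 _ hu)).2
      · exact (A12 _ hW _ (M3 _ hu)).2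
      · exact (A12 _ hY _ (M3 _ hu)).2
      · exact absurd rfl h1
      · exact absurd rfl h2
      · exact (A32 _ hR _ (M3 _ hu)).2
      · exact (A32 _ hR' _ (M3 _ hu)).2
    · intro i hi hU h1 h2 u hu
      interval_cases i <;> simp only [List.getD_cons_zero, List.getD_cons_succ] at h1 h2 ⊢
      · exact (F3 _ (M4 _ hu)).2
      · exact fun e => N3 _ (M4 _ hu) e.symm
      · exact fun e => (hr.Lab u hu).2 e.symm
      · exact fun e => (hr.Lab u hu).1 e.symm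
      · exact (A13 _ hT _ (M4 _ hu)).2
      · exact (A13 _ hW _ (M4 _ hu)).2
      · exact (A13 _ hY _ (M4 _ hu)).2
      · exact (A23 _ hL _ (M4 _ hu)).2
      · exact (A23 _ hL' _ (M4 _ hu)).2
      · exact absurd rfl h1
      · exact absurd rfl h2
  case sep =>
    simp only [List.pairwise_cons, List.forall_mem_cons]
    refine ⟨⟨hP.l12, fun u hu v hv => A12 _ (M1 u hu) _ (M3 v hv),
      fun u hu v hv => A13 _ (M1 u hu) _ (M4 v hv), by simp⟩,
      ⟨fun u hu v hv => A12 _ (M2 u hu) _ (M3 v hv),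
      fun u hu v hv => A13 _ (M2 u hu) _ (M4 v hv), by simp⟩,
      ⟨fun u hu v hv => A23 _ (M3 u hu) _ (M4 v hv), by simp⟩, by simp, by simp⟩

theorem qbb_off (hB : ST_PTB) {V : Type} (G : SimpleGraph V) (K1 K2 K3 : Set V) (wa wb ya yb : ℕ)
    (x a b a' t w y f y' l l' r r' : V) (l1 l2 l3 L R : List V)
    (A12 : Anti G K1 K2) (A13 : Anti G K1 K3) (A23 : Anti G K2 K3)
    (F1 : ∀ u ∈ K1, x ≠ u ∧ ¬ G.Adj x u) (F2 : ∀ u ∈ K2, x ≠ u ∧ ¬ G.Adj x u)
    (F3 : ∀ u ∈ K3, x ≠ u ∧ ¬ G.Adj x u)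
    (xa : G.Adj x a) (xb : G.Adj x b) (xa' : G.Adj x a') (a'b : a' ≠ b) (a'a : a' ≠ a)
    (ab : a ≠ b) (N2 : ∀ u ∈ K2, ¬ G.Adj u a') (N3 : ∀ u ∈ K3, ¬ G.Adj u a)
    (ta : G.Adj t a) (tb : G.Adj t b) (ta' : G.Adj t a')
    (hwa : G.Adj w ([x, a, b, a', t, w, y, f, y', l, l', r, r'].getD wa x))
    (hwb : w ≠ [x, a, b, a', t, w, y, f, y', l, l', r, r'].getD wb x ∧
      ¬ G.Adj w ([x, a, b, a', t, w, y, f, y', l, l', r, r'].getD wb x))
    (hya : G.Adj y ([x, a, b, a', t, w, y, f, y', l, l', r, r'].getD ya x))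
    (hyb : y ≠ [x, a, b, a', t, w, y, f, y', l, l', r, r'].getD yb x ∧
      ¬ G.Adj y ([x, a, b, a', t, w, y, f, y', l, l', r, r'].getD yb x))
    (φ : V → Prop) (hP : OffP G K1 φ t l1 f l2 w y l3 y')
    (hl : Lnk G K2 a b l L l') (hr : Lnk G K3 a' b r R r') :
    PMod G (qbb_P0 wa wb ya yb)
      (fun i => [x, a, b, a', t, w, y, f, y', l, l', r, r'].getD i x) [l1, l2, l3, L, R] := by
  have hT := hP.aK
  have hW := hP.wK
  have hF := hP.fK
  have hY := hP.yK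
  have hY' := hP.y2K
  have hL := hl.lK
  have hL' := hl.rK
  have hR := hr.lK
  have hR' := hr.rK
  have M1 := hP.l1K
  have M2 := hP.l2K
  have M5 := hP.l3K
  have M3 := hl.LK
  have M4 := hr.LK
  have E1 : ∀ n, G.Adj x n → ∀ u ∈ K1, n ≠ u := fun n hn u hu e => (F1 u hu).2 (e ▸ hn)
  have E2 : ∀ n, G.Adj x n → ∀ u ∈ K2, n ≠ u := fun n hn u hu e => (F2 u hu).2 (e ▸ hn)
  have E3 : ∀ n, G.Adj x n → ∀ u ∈ K3, n ≠ u := fun n hn u hu e => (F3 u hu).2 (e ▸ hn)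
  have E2' : ∀ n, G.Adj x n → ∀ u ∈ K2, u ≠ n := fun n hn u hu e => (F2 u hu).2 (e ▸ hn)
  have E3' : ∀ n, G.Adj x n → ∀ u ∈ K3, u ≠ n := fun n hn u hu e => (F3 u hu).2 (e ▸ hn)
  have A21 : Anti G K2 K1 := fun u hu v hv => ⟨(A12 v hv u hu).1.symm, fun e => (A12 v hv u hu).2 e.symm⟩
  have A31 : Anti G K3 K1 := fun u hu v hv => ⟨(A13 v hv u hu).1.symm, fun e => (A13 v hv u hu).2 e.symm⟩
  have A32 : Anti G K3 K2 := fun u hu v hv => ⟨(A23 v hv u hu).1.symm, fun e => (A23 v hv u hu).2 e.symm⟩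
  have P1 := (hB V G).2.1 _ _ _ hP.p1
  have P2 := (hB V G).2.1 _ _ _ hP.p2
  have P5 := (hB V G).2.1 _ _ _ hP.p3
  have P3 := (hB V G).2.1 _ _ _ hl.pth
  have P4 := (hB V G).2.1 _ _ _ hr.pth
  have W1 : w ∉ l1 := by
    rcases eq_or_ne f w with e | e
    · exact e ▸ P1.2.1
    · exact fun h => (hP.l1w e w h).1 rfl
  have T2 : t ∉ l2 := by
    rcases eq_or_ne t f with e | e
    · rw [e]
      exact P2.1
    · exact fun h => (hP.al2 e t h).1 rfl
  have St := hP.sep t (by simp)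
  have Sf := hP.sep f (by simp)
  have Sw := hP.sep w (by simp)
  have S1 : ∀ v ∈ l1, _ := fun v hv => hP.sep v (by simp [hv])
  have S2 : ∀ v ∈ l2, _ := fun v hv => hP.sep v (by simp [hv])
  have Y1 : ∀ u ∈ l1, ¬ G.Adj y u := by
    intro u hu
    rcases eq_or_ne y y' with e | e
    · rw [e]
      exact hP.y2l u hu
    · exact (S1 u hu).2.2.1 e
  constructor
  case e =>
    simp only [qbb_P0, List.forall_mem_cons, List.getD_cons_zero, List.getD_cons_succ]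
    exact ⟨xa, xb, xa', ta, tb, ta', hwa, hya, hP.y2f, hl.la, hl.rb, hr.la, hr.rb, by simp⟩
  case d =>
    simp only [qbb_P0, List.forall_mem_cons, List.getD_cons_zero, List.getD_cons_succ]
    exact ⟨F1 _ hT, F1 _ hW, hwb, F1 _ hY, hyb, F1 _ hF, F1 _ hY', F2 _ hL, A21 _ hL _ hT,
      A21 _ hL _ hW, A21 _ hL _ hY, A21 _ hL _ hF, A21 _ hL _ hY', F2 _ hL', A21 _ hL' _ hT,
      A21 _ hL' _ hW, A21 _ hL' _ hY, A21 _ hL' _ hF, A21 _ hL' _ hY',
      ⟨E2' _ xa' _ hL, N2 _ hL⟩, ⟨E2' _ xa' _ hL', N2 _ hL'⟩, F3 _ hR, A31 _ hR _ hT,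
      A31 _ hR _ hW, A31 _ hR _ hY, A31 _ hR _ hF, A31 _ hR _ hY', A32 _ hR _ hL,
      A32 _ hR _ hL', F3 _ hR', A31 _ hR' _ hT, A31 _ hR' _ hW, A31 _ hR' _ hY,
      A31 _ hR' _ hF, A31 _ hR' _ hY', A32 _ hR' _ hL, A32 _ hR' _ hL',
      ⟨E3' _ xa _ hR, N3 _ hR⟩, ⟨E3' _ xa _ hR', N3 _ hR'⟩, by simp⟩
  case ne =>
    simp only [qbb_P0, List.forall_mem_cons, List.getD_cons_zero, List.getD_cons_succ]
    exact ⟨ab, a'a.symm, a'b.symm, St.2.1, Sw.2.1, St.1, Sf.1, Sw.1, by simp⟩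
  case c =>
    simp only [qbb_P0, List.forall_mem_cons, List.getD_cons_zero, List.getD_cons_succ]
    refine ⟨fun h => hP.aw h.1 h.2.1, fun h => ⟨St.2.1.symm, fun e => hP.y2t h.1 e.symm⟩,
      fun h => ⟨St.1, St.2.2.1 h.1⟩, fun h => ⟨Sf.1, Sf.2.2.1 h.1⟩,
      fun h => ⟨Sw.1, Sw.2.2.1 h.1⟩, fun h => ⟨E2' _ xb _ hL, (hl.lr h.1).1⟩,
      fun h => ⟨E2' _ xa _ hL', (hl.lr h.1).2⟩, fun h => ⟨E3' _ xb _ hR, (hr.lr h.1).1⟩,
      fun h => ⟨E3' _ xa' _ hR', (hr.lr h.1).2⟩, by simp⟩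
  case cn =>
    simp [qbb_P0]
  case len =>
    rfl
  case tri =>
    simp only [qbb_P0, List.zip_cons_cons, List.forall_mem_cons, List.getD_cons_zero,
      List.getD_cons_succ]
    exact ⟨qbb_tri hP.p1, qbb_tri hP.p2, qbb_tri hP.p3, qbb_tri hl.pth, qbb_tri hr.pth, by simp⟩
  case pth =>
    simp only [qbb_P0, List.zip_cons_cons, List.forall_mem_cons, List.getD_cons_zero,
      List.getD_cons_succ]
    exact ⟨qbb_pth hP.p1, qbb_pth hP.p2, qbb_pth hP.p3, qbb_pth hl.pth, qbb_pth hr.pth, by simp⟩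
  case dis =>
    simp only [qbb_P0, List.zip_cons_cons, List.forall_mem_cons]
    refine ⟨?_, ?_, ?_, ?_, ?_, by simp⟩
    · intro i hi
      interval_cases i <;> simp only [List.getD_cons_zero, List.getD_cons_succ]
      · exact fun h => (F1 _ (M1 _ h)).1 rfl
      · exact fun h => E1 _ xa _ (M1 _ h) rfl
      · exact fun h => E1 _ xb _ (M1 _ h) rfl
      · exact fun h => E1 _ xa' _ (M1 _ h) rfl
      · exact P1.1
      · exact W1
      · exact fun h => (S1 _ h).1 rfl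
      · exact P1.2.1
      · exact fun h => (S1 _ h).2.1 rfl
      · exact fun h => (A21 _ hL _ (M1 _ h)).1 rfl
      · exact fun h => (A21 _ hL' _ (M1 _ h)).1 rfl
      · exact fun h => (A31 _ hR _ (M1 _ h)).1 rfl
      · exact fun h => (A31 _ hR' _ (M1 _ h)).1 rfl
    · intro i hi
      interval_cases i <;> simp only [List.getD_cons_zero, List.getD_cons_succ]
      · exact fun h => (F1 _ (M2 _ h)).1 rfl
      · exact fun h => E1 _ xa _ (M2 _ h) rfl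
      · exact fun h => E1 _ xb _ (M2 _ h) rfl
      · exact fun h => E1 _ xa' _ (M2 _ h) rfl
      · exact T2
      · exact P2.2.1
      · exact fun h => (S2 _ h).1 rfl
      · exact P2.1
      · exact fun h => (S2 _ h).2.1 rfl
      · exact fun h => (A21 _ hL _ (M2 _ h)).1 rfl
      · exact fun h => (A21 _ hL' _ (M2 _ h)).1 rfl
      · exact fun h => (A31 _ hR _ (M2 _ h)).1 rfl
      · exact fun h => (A31 _ hR' _ (M2 _ h)).1 rfl
    · intro i hi
      interval_cases i <;> simp only [List.getD_cons_zero, List.getD_cons_succ]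
      · exact fun h => (F1 _ (M5 _ h)).1 rfl
      · exact fun h => E1 _ xa _ (M5 _ h) rfl
      · exact fun h => E1 _ xb _ (M5 _ h) rfl
      · exact fun h => E1 _ xa' _ (M5 _ h) rfl
      · exact fun h => (St.2.2.2 _ h).1 rfl
      · exact fun h => (Sw.2.2.2 _ h).1 rfl
      · exact P5.1
      · exact fun h => (Sf.2.2.2 _ h).1 rfl
      · exact P5.2.1
      · exact fun h => (A21 _ hL _ (M5 _ h)).1 rfl
      · exact fun h => (A21 _ hL' _ (M5 _ h)).1 rfl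
      · exact fun h => (A31 _ hR _ (M5 _ h)).1 rfl
      · exact fun h => (A31 _ hR' _ (M5 _ h)).1 rfl
    · intro i hi
      interval_cases i <;> simp only [List.getD_cons_zero, List.getD_cons_succ]
      · exact fun h => (F2 _ (M3 _ h)).1 rfl
      · exact fun h => E2 _ xa _ (M3 _ h) rfl
      · exact fun h => E2 _ xb _ (M3 _ h) rfl
      · exact fun h => E2 _ xa' _ (M3 _ h) rfl
      · exact fun h => (A12 _ hT _ (M3 _ h)).1 rfl
      · exact fun h => (A12 _ hW _ (M3 _ h)).1 rfl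
      · exact fun h => (A12 _ hY _ (M3 _ h)).1 rfl
      · exact fun h => (A12 _ hF _ (M3 _ h)).1 rfl
      · exact fun h => (A12 _ hY' _ (M3 _ h)).1 rfl
      · exact P3.1
      · exact P3.2.1
      · exact fun h => (A32 _ hR _ (M3 _ h)).1 rfl
      · exact fun h => (A32 _ hR' _ (M3 _ h)).1 rfl
    · intro i hi
      interval_cases i <;> simp only [List.getD_cons_zero, List.getD_cons_succ]
      · exact fun h => (F3 _ (M4 _ h)).1 rfl
      · exact fun h => E3 _ xa _ (M4 _ h) rfl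
      · exact fun h => E3 _ xb _ (M4 _ h) rfl
      · exact fun h => E3 _ xa' _ (M4 _ h) rfl
      · exact fun h => (A13 _ hT _ (M4 _ h)).1 rfl
      · exact fun h => (A13 _ hW _ (M4 _ h)).1 rfl
      · exact fun h => (A13 _ hY _ (M4 _ h)).1 rfl
      · exact fun h => (A13 _ hF _ (M4 _ h)).1 rfl
      · exact fun h => (A13 _ hY' _ (M4 _ h)).1 rfl
      · exact fun h => (A23 _ hL _ (M4 _ h)).1 rfl
      · exact fun h => (A23 _ hL' _ (M4 _ h)).1 rfl
      · exact P4.1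
      · exact P4.2.1
  case cln =>
    simp only [qbb_P0, List.zip_cons_cons, List.forall_mem_cons]
    refine ⟨?_, ?_, ?_, ?_, ?_, by simp⟩
    · intro i hi hU h1 h2 u hu
      interval_cases i <;> simp only [List.getD_cons_zero, List.getD_cons_succ] at h1 h2 ⊢
      · exact (F1 _ (M1 _ hu)).2
      · exact absurd (by simp) hU
      · exact absurd (by simp) hU
      · exact absurd (by simp) hU
      · exact absurd rfl h1
      · exact fun e => (hP.l1w h2.symm u hu).2 e.symm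
      · exact Y1 u hu
      · exact absurd rfl h2
      · exact hP.y2l u hu
      · exact (A21 _ hL _ (M1 _ hu)).2
      · exact (A21 _ hL' _ (M1 _ hu)).2
      · exact (A31 _ hR _ (M1 _ hu)).2
      · exact (A31 _ hR' _ (M1 _ hu)).2
    · intro i hi hU h1 h2 u hu
      interval_cases i <;> simp only [List.getD_cons_zero, List.getD_cons_succ] at h1 h2 ⊢
      · exact (F1 _ (M2 _ hu)).2
      · exact absurd (by simp) hU
      · exact absurd (by simp) hU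
      · exact absurd (by simp) hU
      · exact (hP.al2 h1 u hu).2
      · exact absurd rfl h2
      · exact absurd (by simp) hU
      · exact absurd rfl h1
      · exact absurd (by simp) hU
      · exact (A21 _ hL _ (M2 _ hu)).2
      · exact (A21 _ hL' _ (M2 _ hu)).2
      · exact (A31 _ hR _ (M2 _ hu)).2
      · exact (A31 _ hR' _ (M2 _ hu)).2
    · intro i hi hU h1 h2 u hu
      interval_cases i <;> simp only [List.getD_cons_zero, List.getD_cons_succ] at h1 h2 ⊢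
      · exact (F1 _ (M5 _ hu)).2
      · exact absurd (by simp) hU
      · exact absurd (by simp) hU
      · exact absurd (by simp) hU
      · exact fun e => (St.2.2.2 _ hu).2 e.symm
      · exact fun e => (Sw.2.2.2 _ hu).2 e.symm
      · exact absurd rfl h1
      · exact fun e => (Sf.2.2.2 _ hu).2 e.symm
      · exact absurd rfl h2
      · exact (A21 _ hL _ (M5 _ hu)).2
      · exact (A21 _ hL' _ (M5 _ hu)).2
      · exact (A31 _ hR _ (M5 _ hu)).2
      · exact (A31 _ hR' _ (M5 _ hu)).2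
    · intro i hi hU h1 h2 u hu
      interval_cases i <;> simp only [List.getD_cons_zero, List.getD_cons_succ] at h1 h2 ⊢
      · exact (F2 _ (M3 _ hu)).2
      · exact fun e => (hl.Lab u hu).1 e.symm
      · exact fun e => (hl.Lab u hu).2 e.symm
      · exact fun e => N2 _ (M3 _ hu) e.symm
      · exact (A12 _ hT _ (M3 _ hu)).2
      · exact (A12 _ hW _ (M3 _ hu)).2
      · exact (A12 _ hY _ (M3 _ hu)).2
      · exact (A12 _ hF _ (M3 _ hu)).2
      · exact (A12 _ hY' _ (M3 _ hu)).2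
      · exact absurd rfl h1
      · exact absurd rfl h2
      · exact (A32 _ hR _ (M3 _ hu)).2
      · exact (A32 _ hR' _ (M3 _ hu)).2
    · intro i hi hU h1 h2 u hu
      interval_cases i <;> simp only [List.getD_cons_zero, List.getD_cons_succ] at h1 h2 ⊢
      · exact (F3 _ (M4 _ hu)).2
      · exact fun e => N3 _ (M4 _ hu) e.symm
      · exact fun e => (hr.Lab u hu).2 e.symm
      · exact fun e => (hr.Lab u hu).1 e.symm
      · exact (A13 _ hT _ (M4 _ hu)).2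
      · exact (A13 _ hW _ (M4 _ hu)).2
      · exact (A13 _ hY _ (M4 _ hu)).2
      · exact (A13 _ hF _ (M4 _ hu)).2
      · exact (A13 _ hY' _ (M4 _ hu)).2
      · exact (A23 _ hL _ (M4 _ hu)).2
      · exact (A23 _ hL' _ (M4 _ hu)).2
      · exact absurd rfl h1
      · exact absurd rfl h2
  case sep =>
    simp only [List.pairwise_cons, List.forall_mem_cons]
    refine ⟨⟨hP.l12, fun u hu v hv => ⟨fun e => ((S1 u hu).2.2.2 v hv).1 e.symm,
      fun e => ((S1 u hu).2.2.2 v hv).2 e.symm⟩, fun u hu v hv => A12 _ (M1 u hu) _ (M3 v hv),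
      fun u hu v hv => A13 _ (M1 u hu) _ (M4 v hv), by simp⟩,
      ⟨fun u hu v hv => ⟨fun e => ((S2 u hu).2.2.2 v hv).1 e.symm,
      fun e => ((S2 u hu).2.2.2 v hv).2 e.symm⟩, fun u hu v hv => A12 _ (M2 u hu) _ (M3 v hv),
      fun u hu v hv => A13 _ (M2 u hu) _ (M4 v hv), by simp⟩,
      ⟨fun u hu v hv => A12 _ (M5 u hu) _ (M3 v hv),
      fun u hu v hv => A13 _ (M5 u hu) _ (M4 v hv), by simp⟩,
      ⟨fun u hu v hv => A23 _ (M3 u hu) _ (M4 v hv), by simp⟩, by simp, by simp⟩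

theorem st_QBB (h1 : ST_SEP) (h2 : ST_PTB) : ST_QBB := by
  intro V G hN x y1 y2 y3 a b a' t w y n12 n13 n23 xa xb xa' a'b a'a ab nA2 nA3 ta tb ta' hw hy
    l1 f l2 hP l L l' r R r' hl hr
  have A12 := h1 V G x y1 y2 n12
  have A13 := h1 V G x y1 y3 n13
  have A23 := h1 V G x y2 y3 n23
  have F1 : ∀ u ∈ KC G x y1, x ≠ u ∧ ¬ G.Adj x u := fun u hu => qbb_far hu
  have F2 : ∀ u ∈ KC G x y2, x ≠ u ∧ ¬ G.Adj x u := fun u hu => qbb_far hu
  have F3 : ∀ u ∈ KC G x y3, x ≠ u ∧ ¬ G.Adj x u := fun u hu => qbb_far hu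
  have N2 : ∀ u ∈ KC G x y2, ¬ G.Adj u a' := fun u hu => qbb_att xa' nA2 hu
  have N3 : ∀ u ∈ KC G x y3, ¬ G.Adj u a := fun u hu => qbb_att xa nA3 hu
  rcases hP with hP | ⟨y0, l3, y', hP⟩
  · obtain rfl : f = y := hP.ff
    have ty : t ≠ f := by
      rintro rfl
      rcases hy with h | h
      · exact h.2 tb
      · exact h.2 ta'
    have wa : w ≠ a := fun e => (F1 w hP.wK).2 (e ▸ xa)
    have wb : w ≠ b := fun e => (F1 w hP.wK).2 (e ▸ xb)
    have fb : f ≠ b := fun e => (F1 f hP.fK).2 (e ▸ xb)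
    have fa' : f ≠ a' := fun e => (F1 f hP.fK).2 (e ▸ xa')
    rcases hw with hw | hw <;> rcases hy with hy | hy
    · exact hN preBB001 (by simp [preBs]) _ _ (qbb_e1.1 ▸ qbb_on h2 G _ _ _ 1 2 3 2 x a b a' t w f
        l l' r r' l1 l2 L R A12 A13 A23 F1 F2 F3 xa xb xa' a'b a'a ab N2 N3 ta tb ta' hw.1
        ⟨wb, hw.2⟩ hy.1 ⟨fb, hy.2⟩ ty hP.toP2 hl hr)
    · exact hN preBB011 (by simp [preBs]) _ _ (qbb_e1.2.1 ▸ qbb_on h2 G _ _ _ 1 2 2 3 x a b a' t w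
        f l l' r r' l1 l2 L R A12 A13 A23 F1 F2 F3 xa xb xa' a'b a'a ab N2 N3 ta tb ta' hw.1
        ⟨wb, hw.2⟩ hy.1 ⟨fa', hy.2⟩ ty hP.toP2 hl hr)
    · exact hN preBB101 (by simp [preBs]) _ _ (qbb_e1.2.2.1 ▸ qbb_on h2 G _ _ _ 2 1 3 2 x a b a' t
        w f l l' r r' l1 l2 L R A12 A13 A23 F1 F2 F3 xa xb xa' a'b a'a ab N2 N3 ta tb ta' hw.1
        ⟨wa, hw.2⟩ hy.1 ⟨fb, hy.2⟩ ty hP.toP2 hl hr)
    · exact hN preBB111 (by simp [preBs]) _ _ (qbb_e1.2.2.2 ▸ qbb_on h2 G _ _ _ 2 1 2 3 x a b a' t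
        w f l l' r r' l1 l2 L R A12 A13 A23 F1 F2 F3 xa xb xa' a'b a'a ab N2 N3 ta tb ta' hw.1
        ⟨wa, hw.2⟩ hy.1 ⟨fa', hy.2⟩ ty hP.toP2 hl hr)
  · obtain rfl : y0 = y := hP.yφ
    have wa : w ≠ a := fun e => (F1 w hP.wK).2 (e ▸ xa)
    have wb : w ≠ b := fun e => (F1 w hP.wK).2 (e ▸ xb)
    have fb : y0 ≠ b := fun e => (F1 y0 hP.yK).2 (e ▸ xb)
    have fa' : y0 ≠ a' := fun e => (F1 y0 hP.yK).2 (e ▸ xa')
    rcases hw with hw | hw <;> rcases hy with hy | hy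
    · exact hN preBB000 (by simp [preBs]) _ _ (qbb_e0.1 ▸ qbb_off h2 G _ _ _ 1 2 3 2 x a b a' t w
        y0 f y' l l' r r' l1 l2 l3 L R A12 A13 A23 F1 F2 F3 xa xb xa' a'b a'a ab N2 N3 ta tb ta'
        hw.1 ⟨wb, hw.2⟩ hy.1 ⟨fb, hy.2⟩ _ hP hl hr)
    · exact hN preBB010 (by simp [preBs]) _ _ (qbb_e0.2.1 ▸ qbb_off h2 G _ _ _ 1 2 2 3 x a b a' t
        w y0 f y' l l' r r' l1 l2 l3 L R A12 A13 A23 F1 F2 F3 xa xb xa' a'b a'a ab N2 N3 ta tb ta'
        hw.1 ⟨wb, hw.2⟩ hy.1 ⟨fa', hy.2⟩ _ hP hl hr)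
    · exact hN preBB100 (by simp [preBs]) _ _ (qbb_e0.2.2.1 ▸ qbb_off h2 G _ _ _ 2 1 3 2 x a b a'
        t w y0 f y' l l' r r' l1 l2 l3 L R A12 A13 A23 F1 F2 F3 xa xb xa' a'b a'a ab N2 N3 ta tb
        ta' hw.1 ⟨wa, hw.2⟩ hy.1 ⟨fb, hy.2⟩ _ hP hl hr)
    · exact hN preBB110 (by simp [preBs]) _ _ (qbb_e0.2.2.2 ▸ qbb_off h2 G _ _ _ 2 1 2 3 x a b a'
        t w y0 f y' l l' r r' l1 l2 l3 L R A12 A13 A23 F1 F2 F3 xa xb xa' a'b a'a ab N2 N3 ta tb
        ta' hw.1 ⟨wa, hw.2⟩ hy.1 ⟨fa', hy.2⟩ _ hP hl hr)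

end Pool.Agent.Helper64.FL
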