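import Pool.Agent.Helper64.FL.StC

/-! QPR: the configuration `prePr`. -/

set_option autoImplicit false

namespace Pool.Agent.Helper64.FL

open Pool.Agent.Helper64.CT Pool.Agent.Helper64.DT
open Pool.Agent.Helper64.HG (Ovl Model Circ IC HellyCircle ChordModel)

theorem qpr_pth {V : Type} {G : SimpleGraph V} {a w : V} {l : List V} (h : Pth G a l w)
    (hne : a ≠ w) : IPt G (a :: (l ++ [w])) := by
  rcases h with ⟨h, -⟩ | ⟨-, h⟩
  · exact absurd h hne
  · exact h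

theorem qpr_tri {V : Type} {G : SimpleGraph V} {a w : V} {l : List V} (h : Pth G a l w)
    (e : a = w) : l = [] := by
  rcases h with h | h
  · exact h.2
  · exact absurd e h.1

theorem qpr_x {V : Type} {G : SimpleGraph V} {x a y b : V} {la lb : List V}
    (h : NetX G x la a y lb b) {u v : V} (hu : u = x ∨ u ∈ la ∨ u = a)
    (hv : v = y ∨ v ∈ lb ∨ v = b) (hn : u ≠ x ∨ v ≠ y) : u ≠ v ∧ ¬ G.Adj u v := by
  obtain ⟨h1, h2⟩ := h u hu v hv
  exact ⟨h1, fun e => by rcases hn with g | g; exacts [g (h2 e).1, g (h2 e).2]⟩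

theorem qpr_sym {V : Type} {G : SimpleGraph V} {x a y b : V} {la lb : List V}
    (h : NetX G x la a y lb b) : NetX G y lb b x la a := by
  intro u hu v hv
  obtain ⟨h1, h2⟩ := h v hv u hu
  exact ⟨h1.symm, fun e => ⟨(h2 e.symm).2, (h2 e.symm).1⟩⟩

theorem st_QPR (hB : ST_PTB) : ST_QPR := by
  intro V G S hN x y z p q r la a lb b lc c exy exz eyz hC xa yb zc ay az bx bz cx cy hF
  obtain ⟨-, hPn, -⟩ := hB V G
  have e34 := hC.xy
  have e35 := hC.xz
  have e45 := hC.yz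
  have e60 := xa.symm
  have e71 := yb.symm
  have e82 := zc.symm
  have far : ∀ {v u : V}, u ∈ Far G v → u ≠ v ∧ ¬ G.Adj u v :=
    fun h => ⟨h.1, fun h' => h.2 h'.symm⟩
  have ab := hC.ab
  have ac := hC.ac
  have bc := hC.bc
  have ba := qpr_sym ab
  have ca := qpr_sym ac
  have cb := qpr_sym bc
  obtain ⟨pLa, aLa, -⟩ := hPn _ _ _ hC.pa
  obtain ⟨qLb, bLb, -⟩ := hPn _ _ _ hC.pb
  obtain ⟨rLc, cLc, -⟩ := hPn _ _ _ hC.pc
  have Fp := fun (h : p ≠ a) => hF p (Or.inl ⟨rfl, h⟩)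
  have Fq := fun (h : q ≠ b) => hF q (Or.inr (Or.inl ⟨rfl, h⟩))
  have Fr := fun (h : r ≠ c) => hF r (Or.inr (Or.inr (Or.inl ⟨rfl, h⟩)))
  have Fa := fun u (hu : u ∈ la) => hF u (Or.inr (Or.inr (Or.inr (Or.inl hu))))
  have Fb := fun u (hu : u ∈ lb) => hF u (Or.inr (Or.inr (Or.inr (Or.inr (Or.inl hu)))))
  have Fc := fun u (hu : u ∈ lc) => hF u (Or.inr (Or.inr (Or.inr (Or.inr (Or.inr hu)))))
  have d31 : p ≠ y ∧ ¬ G.Adj p y := by
    rcases eq_or_ne p a with h | h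
    · rw [h]; exact far ay
    · exact far (Fp h).2.1
  have d32 : p ≠ z ∧ ¬ G.Adj p z := by
    rcases eq_or_ne p a with h | h
    · rw [h]; exact far az
    · exact far (Fp h).2.2
  have d40 : q ≠ x ∧ ¬ G.Adj q x := by
    rcases eq_or_ne q b with h | h
    · rw [h]; exact far bx
    · exact far (Fq h).1
  have d42 : q ≠ z ∧ ¬ G.Adj q z := by
    rcases eq_or_ne q b with h | h
    · rw [h]; exact far bz
    · exact far (Fq h).2.2
  have d50 : r ≠ x ∧ ¬ G.Adj r x := by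
    rcases eq_or_ne r c with h | h
    · rw [h]; exact far cx
    · exact far (Fr h).1
  have d51 : r ≠ y ∧ ¬ G.Adj r y := by
    rcases eq_or_ne r c with h | h
    · rw [h]; exact far cy
    · exact far (Fr h).2.1
  have d61 := far ay
  have d62 := far az
  have d70 := far bx
  have d72 := far bz
  have d80 := far cx
  have d81 := far cy
  have n30 : p ≠ x := by
    rcases eq_or_ne p a with h | h
    · rw [h]; exact xa.ne.symm
    · exact (Fp h).1.1
  have c30 := fun (h : p ≠ a) => far (Fp h).1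
  have n41 : q ≠ y := by
    rcases eq_or_ne q b with h | h
    · rw [h]; exact yb.ne.symm
    · exact (Fq h).2.1.1
  have c41 := fun (h : q ≠ b) => far (Fq h).2.1
  have n52 : r ≠ z := by
    rcases eq_or_ne r c with h | h
    · rw [h]; exact zc.ne.symm
    · exact (Fr h).2.2.1
  have c52 := fun (h : r ≠ c) => far (Fr h).2.2
  have n37 : p ≠ b := (ab p (Or.inl rfl) b (Or.inr (Or.inr rfl))).1
  have n73 := n37.symm
  have n38 : p ≠ c := (ac p (Or.inl rfl) c (Or.inr (Or.inr rfl))).1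
  have n83 := n38.symm
  have n46 : q ≠ a := (ba q (Or.inl rfl) a (Or.inr (Or.inr rfl))).1
  have n64 := n46.symm
  have n48 : q ≠ c := (bc q (Or.inl rfl) c (Or.inr (Or.inr rfl))).1
  have n84 := n48.symm
  have n56 : r ≠ a := (ca r (Or.inl rfl) a (Or.inr (Or.inr rfl))).1
  have n65 := n56.symm
  have n57 : r ≠ b := (cb r (Or.inl rfl) b (Or.inr (Or.inr rfl))).1
  have n75 := n57.symm
  have n67 : a ≠ b := (ab a (Or.inr (Or.inr rfl)) b (Or.inr (Or.inr rfl))).1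
  have n68 : a ≠ c := (ac a (Or.inr (Or.inr rfl)) c (Or.inr (Or.inr rfl))).1
  have n78 : b ≠ c := (bc b (Or.inr (Or.inr rfl)) c (Or.inr (Or.inr rfl))).1
  have c64 := fun (h : p ≠ a) => qpr_x ab (u := a) (v := q) (Or.inr (Or.inr rfl)) (Or.inl rfl)
    (Or.inl h.symm)
  have c67 := fun (h : p ≠ a) => qpr_x ab (u := a) (v := b) (Or.inr (Or.inr rfl))
    (Or.inr (Or.inr rfl)) (Or.inl h.symm)
  have c65 := fun (h : p ≠ a) => qpr_x ac (u := a) (v := r) (Or.inr (Or.inr rfl)) (Or.inl rfl)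
    (Or.inl h.symm)
  have c68 := fun (h : p ≠ a) => qpr_x ac (u := a) (v := c) (Or.inr (Or.inr rfl))
    (Or.inr (Or.inr rfl)) (Or.inl h.symm)
  have c73 := fun (h : q ≠ b) => qpr_x ba (u := b) (v := p) (Or.inr (Or.inr rfl)) (Or.inl rfl)
    (Or.inl h.symm)
  have c76 := fun (h : q ≠ b) => qpr_x ba (u := b) (v := a) (Or.inr (Or.inr rfl))
    (Or.inr (Or.inr rfl)) (Or.inl h.symm)
  have c75 := fun (h : q ≠ b) => qpr_x bc (u := b) (v := r) (Or.inr (Or.inr rfl)) (Or.inl rfl)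
    (Or.inl h.symm)
  have c78 := fun (h : q ≠ b) => qpr_x bc (u := b) (v := c) (Or.inr (Or.inr rfl))
    (Or.inr (Or.inr rfl)) (Or.inl h.symm)
  have c83 := fun (h : r ≠ c) => qpr_x ca (u := c) (v := p) (Or.inr (Or.inr rfl)) (Or.inl rfl)
    (Or.inl h.symm)
  have c86 := fun (h : r ≠ c) => qpr_x ca (u := c) (v := a) (Or.inr (Or.inr rfl))
    (Or.inr (Or.inr rfl)) (Or.inl h.symm)
  have c84 := fun (h : r ≠ c) => qpr_x cb (u := c) (v := q) (Or.inr (Or.inr rfl)) (Or.inl rfl)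
    (Or.inl h.symm)
  have c87 := fun (h : r ≠ c) => qpr_x cb (u := c) (v := b) (Or.inr (Or.inr rfl))
    (Or.inr (Or.inr rfl)) (Or.inl h.symm)
  have a0 : x ∉ la := fun h => (Fa x h).1.1 rfl
  have ka0 : ∀ u ∈ la, ¬ G.Adj x u := fun u h => (Fa u h).1.2
  have a1 : y ∉ la := fun h => (Fa y h).2.1.1 rfl
  have ka1 : ∀ u ∈ la, ¬ G.Adj y u := fun u h => (Fa u h).2.1.2
  have a2 : z ∉ la := fun h => (Fa z h).2.2.1 rfl
  have ka2 : ∀ u ∈ la, ¬ G.Adj z u := fun u h => (Fa u h).2.2.2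
  have a3 : p ∉ la := pLa
  have a4 : q ∉ la := fun h => (ab q (Or.inr (Or.inl h)) q (Or.inl rfl)).1 rfl
  have ka4 : ∀ u ∈ la, ¬ G.Adj q u := fun u h h1 =>
    (qpr_x ab (u := u) (v := q) (Or.inr (Or.inl h)) (Or.inl rfl) (Or.inl fun e => pLa (e ▸ h))).2 h1.symm
  have a5 : r ∉ la := fun h => (ac r (Or.inr (Or.inl h)) r (Or.inl rfl)).1 rfl
  have ka5 : ∀ u ∈ la, ¬ G.Adj r u := fun u h h1 =>
    (qpr_x ac (u := u) (v := r) (Or.inr (Or.inl h)) (Or.inl rfl) (Or.inl fun e => pLa (e ▸ h))).2 h1.symm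
  have a6 : a ∉ la := aLa
  have a7 : b ∉ la := fun h => (ab b (Or.inr (Or.inl h)) b (Or.inr (Or.inr rfl))).1 rfl
  have ka7 : ∀ u ∈ la, ¬ G.Adj b u := fun u h h1 =>
    (qpr_x ab (u := u) (v := b) (Or.inr (Or.inl h)) (Or.inr (Or.inr rfl)) (Or.inl fun e => pLa (e ▸ h))).2 h1.symm
  have a8 : c ∉ la := fun h => (ac c (Or.inr (Or.inl h)) c (Or.inr (Or.inr rfl))).1 rfl
  have ka8 : ∀ u ∈ la, ¬ G.Adj c u := fun u h h1 =>
    (qpr_x ac (u := u) (v := c) (Or.inr (Or.inl h)) (Or.inr (Or.inr rfl)) (Or.inl fun e => pLa (e ▸ h))).2 h1.symm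
  have b0 : x ∉ lb := fun h => (Fb x h).1.1 rfl
  have kb0 : ∀ u ∈ lb, ¬ G.Adj x u := fun u h => (Fb u h).1.2
  have b1 : y ∉ lb := fun h => (Fb y h).2.1.1 rfl
  have kb1 : ∀ u ∈ lb, ¬ G.Adj y u := fun u h => (Fb u h).2.1.2
  have b2 : z ∉ lb := fun h => (Fb z h).2.2.1 rfl
  have kb2 : ∀ u ∈ lb, ¬ G.Adj z u := fun u h => (Fb u h).2.2.2
  have b3 : p ∉ lb := fun h => (ba p (Or.inr (Or.inl h)) p (Or.inl rfl)).1 rfl
  have kb3 : ∀ u ∈ lb, ¬ G.Adj p u := fun u h h1 =>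
    (qpr_x ba (u := u) (v := p) (Or.inr (Or.inl h)) (Or.inl rfl) (Or.inl fun e => qLb (e ▸ h))).2 h1.symm
  have b4 : q ∉ lb := qLb
  have b5 : r ∉ lb := fun h => (bc r (Or.inr (Or.inl h)) r (Or.inl rfl)).1 rfl
  have kb5 : ∀ u ∈ lb, ¬ G.Adj r u := fun u h h1 =>
    (qpr_x bc (u := u) (v := r) (Or.inr (Or.inl h)) (Or.inl rfl) (Or.inl fun e => qLb (e ▸ h))).2 h1.symm
  have b6 : a ∉ lb := fun h => (ba a (Or.inr (Or.inl h)) a (Or.inr (Or.inr rfl))).1 rfl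
  have kb6 : ∀ u ∈ lb, ¬ G.Adj a u := fun u h h1 =>
    (qpr_x ba (u := u) (v := a) (Or.inr (Or.inl h)) (Or.inr (Or.inr rfl)) (Or.inl fun e => qLb (e ▸ h))).2 h1.symm
  have b7 : b ∉ lb := bLb
  have b8 : c ∉ lb := fun h => (bc c (Or.inr (Or.inl h)) c (Or.inr (Or.inr rfl))).1 rfl
  have kb8 : ∀ u ∈ lb, ¬ G.Adj c u := fun u h h1 =>
    (qpr_x bc (u := u) (v := c) (Or.inr (Or.inl h)) (Or.inr (Or.inr rfl)) (Or.inl fun e => qLb (e ▸ h))).2 h1.symm
  have c0 : x ∉ lc := fun h => (Fc x h).1.1 rfl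
  have kc0 : ∀ u ∈ lc, ¬ G.Adj x u := fun u h => (Fc u h).1.2
  have c1 : y ∉ lc := fun h => (Fc y h).2.1.1 rfl
  have kc1 : ∀ u ∈ lc, ¬ G.Adj y u := fun u h => (Fc u h).2.1.2
  have c2 : z ∉ lc := fun h => (Fc z h).2.2.1 rfl
  have kc2 : ∀ u ∈ lc, ¬ G.Adj z u := fun u h => (Fc u h).2.2.2
  have c3 : p ∉ lc := fun h => (ca p (Or.inr (Or.inl h)) p (Or.inl rfl)).1 rfl
  have kc3 : ∀ u ∈ lc, ¬ G.Adj p u := fun u h h1 =>
    (qpr_x ca (u := u) (v := p) (Or.inr (Or.inl h)) (Or.inl rfl) (Or.inl fun e => rLc (e ▸ h))).2 h1.symm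
  have c4 : q ∉ lc := fun h => (cb q (Or.inr (Or.inl h)) q (Or.inl rfl)).1 rfl
  have kc4 : ∀ u ∈ lc, ¬ G.Adj q u := fun u h h1 =>
    (qpr_x cb (u := u) (v := q) (Or.inr (Or.inl h)) (Or.inl rfl) (Or.inl fun e => rLc (e ▸ h))).2 h1.symm
  have c5 : r ∉ lc := rLc
  have c6 : a ∉ lc := fun h => (ca a (Or.inr (Or.inl h)) a (Or.inr (Or.inr rfl))).1 rfl
  have kc6 : ∀ u ∈ lc, ¬ G.Adj a u := fun u h h1 =>
    (qpr_x ca (u := u) (v := a) (Or.inr (Or.inl h)) (Or.inr (Or.inr rfl)) (Or.inl fun e => rLc (e ▸ h))).2 h1.symm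
  have c7 : b ∉ lc := fun h => (cb b (Or.inr (Or.inl h)) b (Or.inr (Or.inr rfl))).1 rfl
  have kc7 : ∀ u ∈ lc, ¬ G.Adj b u := fun u h h1 =>
    (qpr_x cb (u := u) (v := b) (Or.inr (Or.inl h)) (Or.inr (Or.inr rfl)) (Or.inl fun e => rLc (e ▸ h))).2 h1.symm
  have c8 : c ∉ lc := cLc
  have sp : ([la, lb, lc] : List (List V)).Pairwise
      (fun A B => ∀ x ∈ A, ∀ y ∈ B, x ≠ y ∧ ¬ G.Adj x y) := by
    simp only [List.pairwise_cons, List.mem_cons, List.not_mem_nil, or_false, forall_eq_or_imp,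
      forall_eq, List.Pairwise.nil, and_true, false_imp_iff, implies_true]
    refine ⟨⟨?_, ?_⟩, ?_⟩
    · intro u hu v hv
      exact qpr_x ab (Or.inr (Or.inl hu)) (Or.inr (Or.inl hv)) (Or.inl fun e => pLa (e ▸ hu))
    · intro u hu v hv
      exact qpr_x ac (Or.inr (Or.inl hu)) (Or.inr (Or.inl hv)) (Or.inl fun e => pLa (e ▸ hu))
    · intro u hu v hv
      exact qpr_x bc (Or.inr (Or.inl hu)) (Or.inr (Or.inl hv)) (Or.inl fun e => qLb (e ▸ hu))
  refine hN prePr (by simp [preCs]) (fun i => ([x, y, z, p, q, r, a, b, c] : List V).getD i x)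
    [la, lb, lc] ⟨?_, ?_, ?_, ?_, ?_, rfl, ?_, ?_, ?_, ?_, sp⟩
  · intro y hy; fin_cases hy <;> assumption
  · intro y hy; fin_cases hy <;> assumption
  · intro y hy; fin_cases hy <;> assumption
  · intro y hy hh
    fin_cases hy
    · exact c30 (hh (3, 6) (by simp))
    · exact c41 (hh (4, 7) (by simp))
    · exact c52 (hh (5, 8) (by simp))
    · exact c64 (hh (3, 6) (by simp))
    · exact c65 (hh (3, 6) (by simp))
    · exact c73 (hh (4, 7) (by simp))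
    · exact c75 (hh (4, 7) (by simp))
    · exact c83 (hh (5, 8) (by simp))
    · exact c84 (hh (5, 8) (by simp))
    · exact c67 (hh (3, 6) (by simp))
    · exact c68 (hh (3, 6) (by simp))
    · exact c76 (hh (4, 7) (by simp))
    · exact c78 (hh (4, 7) (by simp))
    · exact c86 (hh (5, 8) (by simp))
    · exact c87 (hh (5, 8) (by simp))
  · intro y hy; exact absurd hy (by simp [prePr])
  · intro y hy
    fin_cases hy
    · exact fun h => qpr_tri hC.pa h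
    · exact fun h => qpr_tri hC.pb h
    · exact fun h => qpr_tri hC.pc h
  · intro y hy
    fin_cases hy
    · exact fun h => qpr_pth hC.pa h
    · exact fun h => qpr_pth hC.pb h
    · exact fun h => qpr_pth hC.pc h
  · intro y hy i hi
    have hi' : i < 9 := hi
    fin_cases hy <;> interval_cases i <;> assumption
  · intro y hy i hi hU h1 h2
    have hi' : i < 9 := hi
    fin_cases hy <;> interval_cases i <;>
      first
      | assumption
      | exact absurd rfl h1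
      | exact absurd rfl h2

end Pool.Agent.Helper64.FL
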